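import Pool.Agent.Q270.RT.Line

/-!
# Analytic homogeneous functions of degree zero have nonzero derivatives of high order
-/

set_option autoImplicit false

namespace Pool.Agent.Q270.RT

open Finset Real Filter Topology
open scoped ContDiff

variable {n m : ℕ}

/-- the derivative in the direction `v` -/
noncomputable def Dd (v : Fin n → ℤ) (g : (Fin n → ℝ) → ℝ) (c : Fin n → ℝ) : ℝ :=
  fderiv ℝ g c (rv v)

/-- the iterated derivatives -/
noncomputable def Psi (Φ : Fin m → (Fin n → ℝ) → ℝ) (v : Fin n → ℤ) (j : Fin m) (k : ℕ) :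
    (Fin n → ℝ) → ℝ := (Dd v)^[k] (Φ j)

lemma Psi_zero (Φ : Fin m → (Fin n → ℝ) → ℝ) (v : Fin n → ℤ) (j : Fin m) :
    Psi Φ v j 0 = Φ j := rfl

lemma Psi_succ (Φ : Fin m → (Fin n → ℝ) → ℝ) (v : Fin n → ℤ) (j : Fin m) (k : ℕ) :
    Psi Φ v j (k + 1) = Dd v (Psi Φ v j k) := Function.iterate_succ_apply' _ _ _

lemma Psi_ana {Φ : Fin m → (Fin n → ℝ) → ℝ} {s : Set (Fin n → ℝ)}
    (h : ∀ j, AnalyticOnNhd ℝ (Φ j) s) (v : Fin n → ℤ) (j : Fin m) (k : ℕ) :
    AnalyticOnNhd ℝ (Psi Φ v j k) s := by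
  induction k with
  | zero => exact h j
  | succ k ih =>
    rw [Psi_succ]
    intro c hc
    have h1 : AnalyticAt ℝ (fderiv ℝ (Psi Φ v j k)) c := (ih c hc).fderiv
    exact ((ContinuousLinearMap.apply ℝ ℝ (rv v)).analyticAt _).comp h1

lemma Psi_der {Φ : Fin m → (Fin n → ℝ) → ℝ} {s : Set (Fin n → ℝ)}
    (h : ∀ j, AnalyticOnNhd ℝ (Φ j) s) (v : Fin n → ℤ) (j : Fin m) (k : ℕ) {c : Fin n → ℝ}
    (hc : c ∈ s) :
    HasDerivAt (fun t : ℝ => Psi Φ v j k (c + t • rv v)) (Psi Φ v j (k + 1) c) 0 := by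
  have h1 : HasFDerivAt (Psi Φ v j k) (fderiv ℝ (Psi Φ v j k) c) c :=
    (Psi_ana h v j k c hc).differentiableAt.hasFDerivAt
  have h2 : HasDerivAt (fun t : ℝ => c + t • rv v) (rv v) 0 := by
    have h3 : HasDerivAt (fun t : ℝ => t • rv v) ((1 : ℝ) • rv v) 0 :=
      (hasDerivAt_id (0 : ℝ)).smul_const (rv v)
    rw [one_smul] at h3
    exact h3.const_add c
  have h3 : HasFDerivAt (Psi Φ v j k) (fderiv ℝ (Psi Φ v j k) c) (c + (0 : ℝ) • rv v) := by
    rw [zero_smul, add_zero]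
    exact h1
  have h4 := h3.comp_hasDerivAt (0 : ℝ) h2
  rw [Psi_succ]
  exact h4

/-- the derivatives along a line -/
lemma line_deriv {Φ : Fin m → (Fin n → ℝ) → ℝ} {c0 : Fin n → ℝ} {r : ℝ}
    (h : ∀ j, AnalyticOnNhd ℝ (Φ j) (Metric.ball c0 r)) (u : Fin m → ℝ) (v : Fin n → ℤ) (k : ℕ) :
    ∀ t : ℝ, c0 + t • rv v ∈ Metric.ball c0 r →
      iteratedDeriv k (fun t : ℝ => ∑ j, u j * Φ j (c0 + t • rv v)) t =
      ∑ j, u j * Psi Φ v j k (c0 + t • rv v) := by
  induction k with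
  | zero =>
    intro t _
    rw [iteratedDeriv_zero]
    rfl
  | succ k ih =>
    intro t ht
    rw [iteratedDeriv_succ]
    have hopen : IsOpen {t : ℝ | c0 + t • rv v ∈ Metric.ball c0 r} := by
      have : Continuous fun t : ℝ => c0 + t • rv v := by fun_prop
      exact Metric.isOpen_ball.preimage this
    have h1 : iteratedDeriv k (fun t : ℝ => ∑ j, u j * Φ j (c0 + t • rv v)) =ᶠ[𝓝 t]
        fun t => ∑ j, u j * Psi Φ v j k (c0 + t • rv v) := by
      filter_upwards [hopen.mem_nhds ht] with x hx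
      exact ih x hx
    rw [h1.deriv_eq]
    have h2 : HasDerivAt (fun t : ℝ => ∑ j, u j * Psi Φ v j k (c0 + t • rv v))
        (∑ j, u j * Psi Φ v j (k + 1) (c0 + t • rv v)) t := by
      refine HasDerivAt.fun_sum fun j _ => ?_
      have h3 := Psi_der h v j k ht
      have h4 : HasDerivAt (fun t' : ℝ => t' - t) 1 t := (hasDerivAt_id t).sub_const t
      have h30 : t - t = 0 := sub_self t
      rw [← h30] at h3
      have h5 := HasDerivAt.comp (h := fun t' : ℝ => t' - t) t h3 h4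
      have h6 : ((fun s : ℝ => Psi Φ v j k (c0 + t • rv v + s • rv v)) ∘ fun t' : ℝ => t' - t) =
          fun t' : ℝ => Psi Φ v j k (c0 + t' • rv v) := by
        funext s
        simp only [Function.comp]
        congr 1
        rw [add_assoc, ← add_smul]
        congr 2
        ring
      rw [h6, mul_one] at h5
      exact h5.const_mul _
    exact h2.deriv

/-- a function which is homogeneous of degree zero and not constant has nonzero derivatives of
arbitrarily high order in integer directions -/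
lemma exists_deriv {Φ : Fin m → (Fin n → ℝ) → ℝ} {c0 : Fin n → ℝ} {r : ℝ} (hr : 0 < r)
    (h : ∀ j, AnalyticOnNhd ℝ (Φ j) (Metric.ball c0 r)) (u : Fin m → ℝ)
    (hhom : ∀ᶠ x : (Fin n → ℝ) × ℝ in 𝓝 (c0, 1), ∀ j, Φ j (x.2 • x.1) = Φ j x.1)
    (hnd : ¬ ∃ C : ℝ, ∀ᶠ c in 𝓝 c0, ∑ j, u j * Φ j c = C) (K : ℕ) :
    ∃ (v : Fin n → ℤ) (k : ℕ), K ≤ k ∧ ∑ j, u j * Psi Φ v j k c0 ≠ 0 := by
  by_contra hcon
  push Not at hcon
  set F : (Fin n → ℝ) → ℝ := fun c => ∑ j, u j * Φ j c with hF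
  have hFa : AnalyticAt ℝ F c0 := by
    rw [hF]
    exact Finset.analyticAt_fun_sum _ fun j _ =>
      analyticAt_const.mul (h j c0 (Metric.mem_ball_self hr))
  obtain ⟨p, hp⟩ := hFa
  obtain ⟨ρ, hρ⟩ := hp
  have hρ0 := hρ.r_pos
  -- the Taylor coefficients in the integer directions
  have hcoef : ∀ (v : Fin n → ℤ) (k : ℕ), K ≤ k → p k (fun _ => rv v) = 0 := by
    intro v k hk
    set G : ℝ → ℝ := fun t => F (c0 + t • rv v) with hG
    have hline : Tendsto (fun t : ℝ => t • rv v) (𝓝 0) (𝓝 0) := by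
      have : ContinuousAt (fun t : ℝ => t • rv v) 0 := by fun_prop
      have h5 := this.tendsto
      rwa [zero_smul] at h5
    have h1 : ∀ᶠ t : ℝ in 𝓝 0, HasSum (fun k => p k (fun _ => t • rv v)) (G t) := by
      have h2 : ∀ᶠ y : Fin n → ℝ in 𝓝 0, y ∈ Metric.eball (0 : Fin n → ℝ) ρ :=
        Metric.eball_mem_nhds _ hρ0
      filter_upwards [hline.eventually h2] with t ht
      exact hρ.hasSum ht
    have h3 : HasFPowerSeriesAt G (FormalMultilinearSeries.ofScalars ℝ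
        (fun k => p k (fun _ => rv v))) 0 := by
      rw [hasFPowerSeriesAt_iff]
      filter_upwards [h1] with t ht
      rw [zero_add]
      refine ht.congr_fun fun k => ?_
      rw [FormalMultilinearSeries.coeff_ofScalars, smul_eq_mul]
      have h4 := (p k).map_smul_univ (fun _ => t) (fun _ => rv v)
      rw [h4, prod_const, card_univ, Fintype.card_fin, smul_eq_mul]
    have h4 : AnalyticAt ℝ G 0 := h3.analyticAt
    have h5 := h3.eq_formalMultilinearSeries h4.hasFPowerSeriesAt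
    have h6 := congrArg (fun q => FormalMultilinearSeries.coeff q k) h5
    simp only [FormalMultilinearSeries.coeff_ofScalars] at h6
    have h7 : iteratedDeriv k G 0 = 0 := by
      have h8 := line_deriv h u v k 0 (by rw [zero_smul, add_zero]; exact Metric.mem_ball_self hr)
      rw [zero_smul, add_zero] at h8
      have h9 : iteratedDeriv k G 0 = ∑ j, u j * Psi Φ v j k c0 := h8
      rw [h9]
      exact hcon v k hk
    rw [h6, h7, zero_div]
  -- in all directions
  have hall : ∀ (y : Fin n → ℝ) (k : ℕ), K ≤ k → p k (fun _ => y) = 0 := by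
    intro y k hk
    have hlim : Tendsto (fun N : ℕ => ((N : ℝ)⁻¹) • rv (fun i => ⌊(N : ℝ) * y i⌋)) atTop (𝓝 y) := by
      rw [tendsto_pi_nhds]
      intro i
      have h1 : Tendsto (fun N : ℕ => ((N : ℝ))⁻¹) atTop (𝓝 0) :=
        tendsto_inv_atTop_zero.comp tendsto_natCast_atTop_atTop
      have h2 : Tendsto (fun N : ℕ => y i - ((N : ℝ))⁻¹) atTop (𝓝 (y i)) := by
        have := h1.const_sub (y i)
        rwa [sub_zero] at this
      refine tendsto_of_tendsto_of_tendsto_of_le_of_le' h2 tendsto_const_nhds ?_ ?_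
      · filter_upwards [eventually_ge_atTop 1] with N hN
        have hN0 : (0 : ℝ) < N := by exact_mod_cast hN
        have h3 := Int.lt_floor_add_one ((N : ℝ) * y i)
        show y i - (N : ℝ)⁻¹ ≤ (N : ℝ)⁻¹ * ((⌊(N : ℝ) * y i⌋ : ℤ) : ℝ)
        have h4 : (N : ℝ)⁻¹ * ((N : ℝ) * y i - 1) ≤ (N : ℝ)⁻¹ * ((⌊(N : ℝ) * y i⌋ : ℤ) : ℝ) := by
          gcongr
          linarith
        refine le_trans (le_of_eq ?_) h4
        field_simp
      · filter_upwards [eventually_ge_atTop 1] with N hN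
        have hN0 : (0 : ℝ) < N := by exact_mod_cast hN
        have h3 := Int.floor_le ((N : ℝ) * y i)
        show (N : ℝ)⁻¹ * ((⌊(N : ℝ) * y i⌋ : ℤ) : ℝ) ≤ y i
        have h4 : (N : ℝ)⁻¹ * ((⌊(N : ℝ) * y i⌋ : ℤ) : ℝ) ≤ (N : ℝ)⁻¹ * ((N : ℝ) * y i) := by
          gcongr
        refine h4.trans (le_of_eq ?_)
        field_simp
    have hcont : Continuous fun y : Fin n → ℝ => p k (fun _ => y) :=
      (p k).cont.comp (continuous_pi fun _ => continuous_id)
    have h1 := (hcont.tendsto y).comp hlim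
    have h2 : ∀ N : ℕ, p k (fun _ => ((N : ℝ)⁻¹) • rv (fun i => ⌊(N : ℝ) * y i⌋)) = 0 := by
      intro N
      have h4 := (p k).map_smul_univ (fun _ => (N : ℝ)⁻¹) (fun _ => rv (fun i => ⌊(N : ℝ) * y i⌋))
      rw [h4, hcoef _ k hk, smul_zero]
    refine tendsto_nhds_unique h1 ?_
    have h3 : ((fun y : Fin n → ℝ => p k (fun _ => y)) ∘
        fun N : ℕ => ((N : ℝ)⁻¹) • rv (fun i => ⌊(N : ℝ) * y i⌋)) = fun _ => 0 := by
      funext N
      exact h2 N
    rw [h3]
    exact tendsto_const_nhds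
  -- the polynomial
  set G : (Fin n → ℝ) → ℝ := fun c => ∑ k ∈ range K, p k (fun _ => c - c0) with hG
  have hFG : ∀ᶠ c in 𝓝 c0, F c = G c := by
    have h2 : ∀ᶠ y : Fin n → ℝ in 𝓝 0, y ∈ Metric.eball (0 : Fin n → ℝ) ρ :=
      Metric.eball_mem_nhds _ hρ0
    have h3 : Tendsto (fun c : Fin n → ℝ => c - c0) (𝓝 c0) (𝓝 0) := by
      have : ContinuousAt (fun c : Fin n → ℝ => c - c0) c0 := by fun_prop
      have h5 := this.tendsto
      rwa [sub_self] at h5
    filter_upwards [h3.eventually h2] with c hc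
    have h4 := hρ.hasSum hc
    rw [add_sub_cancel] at h4
    have h5 : HasSum (fun k => p k (fun _ => c - c0)) (∑ k ∈ range K, p k (fun _ => c - c0)) := by
      refine hasSum_sum_of_ne_finset_zero fun k hk => ?_
      exact hall _ k (by rw [mem_range] at hk; omega)
    exact h4.unique h5
  apply hnd
  refine ⟨G 0, ?_⟩
  -- along the rays
  have hFG2 : ∀ᶠ x : (Fin n → ℝ) × ℝ in 𝓝 (c0, 1), F (x.2 • x.1) = G (x.2 • x.1) := by
    have h1 : Tendsto (fun x : (Fin n → ℝ) × ℝ => x.2 • x.1) (𝓝 (c0, 1)) (𝓝 c0) := by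
      have : ContinuousAt (fun x : (Fin n → ℝ) × ℝ => x.2 • x.1) (c0, 1) := by fun_prop
      have h5 := this.tendsto
      rwa [one_smul] at h5
    exact h1.eventually hFG
  have hboth := hhom.and hFG2
  rw [nhds_prod_eq] at hboth
  have hcur := Filter.Eventually.curry hboth
  filter_upwards [hcur] with c hc
  have hana : AnalyticOnNhd ℝ (fun t : ℝ => G (t • c) - F c) Set.univ := by
    intro t _
    have h1 : ContDiff ℝ ω (fun t : ℝ => G (t • c) - F c) := by
      refine ContDiff.sub ?_ contDiff_const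
      rw [hG]
      refine ContDiff.sum fun k _ => ?_
      refine (ContinuousMultilinearMap.contDiff (p k)).comp (contDiff_pi.2 fun _ => ?_)
      exact (contDiff_id.smul contDiff_const).sub contDiff_const
    exact h1.contDiffAt.analyticAt
  have hzero : (fun t : ℝ => G (t • c) - F c) =ᶠ[𝓝 1] 0 := by
    filter_upwards [hc] with t ht
    obtain ⟨h1, h2⟩ := ht
    have h3 : F (t • c) = F c := by
      rw [hF]
      exact sum_congr rfl fun j _ => by rw [h1 j]
    rw [Pi.zero_apply, ← h2, h3, sub_self]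
  have h1 := hana.eqOn_zero_of_preconnected_of_eventuallyEq_zero isPreconnected_univ
    (Set.mem_univ 1) hzero (Set.mem_univ (0 : ℝ))
  simp only [zero_smul, Pi.zero_apply] at h1
  linarith

/-- the derivatives on a small cube -/
theorem exists_chain {Φ : Fin m → (Fin n → ℝ) → ℝ} {c0 : Fin n → ℝ}
    (hΦ : ∀ j, AnalyticAt ℝ (Φ j) c0)
    (hhom : ∀ᶠ x : (Fin n → ℝ) × ℝ in 𝓝 (c0, 1), ∀ j, Φ j (x.2 • x.1) = Φ j x.1)
    (hnd : ∀ u : Fin m → ℝ, u ≠ 0 → ¬ ∃ C : ℝ, ∀ᶠ c in 𝓝 c0, ∑ j, u j * Φ j c = C)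
    (K : ℕ) (δ1 : ℝ) (hδ1 : 0 < δ1) :
    ∃ δ : ℝ, 0 < δ ∧ δ ≤ δ1 ∧ Chain c0 δ K (Psi Φ) := by
  obtain ⟨r, hr, hr2⟩ : ∃ r : ℝ, 0 < r ∧ ∀ j, AnalyticOnNhd ℝ (Φ j) (Metric.ball c0 r) := by
    have h1 : ∀ᶠ c in 𝓝 c0, ∀ j, AnalyticAt ℝ (Φ j) c :=
      Filter.eventually_all.2 fun j => (hΦ j).eventually_analyticAt
    obtain ⟨r, hr, h2⟩ := Metric.eventually_nhds_iff_ball.1 h1
    exact ⟨r, hr, fun j c hc => h2 c hc j⟩
  have hin : ∀ {δ : ℝ}, 0 ≤ δ → ∀ {c : Fin n → ℝ}, InC c0 δ c → dist c c0 ≤ δ := by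
    intro δ hδ c hc
    rw [dist_pi_le_iff hδ]
    intro i
    rw [Real.dist_eq]
    exact hc i
  -- compactness of the sphere
  have hkey : ∃ (F : Finset ((Fin n → ℤ) × ℕ)) (η δ : ℝ), 0 < η ∧ 0 < δ ∧ (∀ i ∈ F, K ≤ i.2) ∧
      ∀ u ∈ Metric.sphere (0 : Fin m → ℝ) 1, ∃ i ∈ F, ∀ c, InC c0 δ c →
        η ≤ |∑ j, u j * Psi Φ i.1 j i.2 c| := by
    refine (isCompact_sphere (0 : Fin m → ℝ) 1).induction_on
      (p := fun s => ∃ (F : Finset ((Fin n → ℤ) × ℕ)) (η δ : ℝ), 0 < η ∧ 0 < δ ∧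
      (∀ i ∈ F, K ≤ i.2) ∧
      ∀ u ∈ s, ∃ i ∈ F, ∀ c, InC c0 δ c → η ≤ |∑ j, u j * Psi Φ i.1 j i.2 c|) ?_ ?_ ?_ ?_
    · exact ⟨∅, 1, 1, one_pos, one_pos, by simp, by simp⟩
    · rintro s t hst ⟨F, η, δ, h1, h2, h3, h4⟩
      exact ⟨F, η, δ, h1, h2, h3, fun u hu => h4 u (hst hu)⟩
    · rintro s t ⟨F, η, δ, h1, h2, h3, h4⟩ ⟨F', η', δ', h1', h2', h3', h4'⟩
      classical
      refine ⟨F ∪ F', min η η', min δ δ', lt_min h1 h1', lt_min h2 h2', ?_, ?_⟩
      · intro i hi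
        rcases Finset.mem_union.1 hi with h | h
        · exact h3 i h
        · exact h3' i h
      · rintro u (hu | hu)
        · obtain ⟨i, hi, hi2⟩ := h4 u hu
          exact ⟨i, Finset.mem_union_left _ hi, fun c hc => (min_le_left _ _).trans
            (hi2 c fun j => (hc j).trans (min_le_left _ _))⟩
        · obtain ⟨i, hi, hi2⟩ := h4' u hu
          exact ⟨i, Finset.mem_union_right _ hi, fun c hc => (min_le_right _ _).trans
            (hi2 c fun j => (hc j).trans (min_le_right _ _))⟩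
    · intro u hu
      have hu0 : u ≠ 0 := by
        rintro rfl
        simp at hu
      obtain ⟨v, k, hk, hk0⟩ := exists_deriv hr hr2 u hhom (hnd u hu0) K
      set f : (Fin m → ℝ) × (Fin n → ℝ) → ℝ := fun x => ∑ j, x.1 j * Psi Φ v j k x.2 with hf
      have hfc : ContinuousAt f (u, c0) := by
        have h1 : ∀ j, ContinuousAt (fun x : (Fin m → ℝ) × (Fin n → ℝ) =>
            x.1 j * Psi Φ v j k x.2) (u, c0) := by
          intro j
          have h2 : ContinuousAt (Psi Φ v j k) c0 :=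
            (Psi_ana hr2 v j k c0 (Metric.mem_ball_self hr)).continuousAt
          have h3 : ContinuousAt (fun x : (Fin m → ℝ) × (Fin n → ℝ) => Psi Φ v j k x.2)
              (u, c0) := ContinuousAt.comp (f := Prod.snd) h2 continuousAt_snd
          have h4 : ContinuousAt (fun x : (Fin m → ℝ) × (Fin n → ℝ) => x.1 j) (u, c0) :=
            ((continuous_apply j).comp continuous_fst).continuousAt
          exact h4.mul h3
        rw [hf]
        exact tendsto_finsetSum _ fun j _ => h1 j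
      have hf0 : 0 < |f (u, c0)| := abs_pos.2 hk0
      have hev : ∀ᶠ x in 𝓝 (u, c0), |f (u, c0)| / 2 ≤ |f x| := by
        have := hfc.abs.eventually (lt_mem_nhds (show |f (u, c0)| / 2 < |f (u, c0)| by linarith))
        exact this.mono fun x hx => le_of_lt hx
      rw [nhds_prod_eq, Filter.eventually_prod_iff] at hev
      obtain ⟨pa, hpa, pb, hpb, hpab⟩ := hev
      obtain ⟨δ, hδ, hδ2⟩ := Metric.eventually_nhds_iff.1 hpb
      refine ⟨{v | pa v}, nhdsWithin_le_nhds hpa, {(v, k)}, |f (u, c0)| / 2, δ / 2, by positivity,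
        by positivity, by simpa using hk, ?_⟩
      intro v' hv'
      refine ⟨(v, k), Finset.mem_singleton_self _, fun c hc => ?_⟩
      exact hpab hv' (hδ2 (lt_of_le_of_lt (hin (by positivity) hc) (by linarith)))
  obtain ⟨F, η, δ', hη, hδ', hFK, hbig⟩ := hkey
  set δ : ℝ := min (min δ' (r / 2)) δ1 with hδdef
  have hδ0 : 0 < δ := lt_min (lt_min hδ' (by positivity)) hδ1
  have hδδ' : δ ≤ δ' := (min_le_left _ _).trans (min_le_left _ _)
  have hδr : δ ≤ r / 2 := (min_le_left _ _).trans (min_le_right _ _)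
  have hball : ∀ c, InC c0 δ c → c ∈ Metric.ball c0 r := by
    intro c hc
    rw [Metric.mem_ball]
    exact lt_of_le_of_lt (hin hδ0.le hc) (by linarith)
  refine ⟨δ, hδ0, min_le_right _ _,
    ⟨fun v j k c hc => Psi_der hr2 v j k (hball c hc), fun v j => rfl, ?_, ?_⟩⟩
  · intro v k
    have hcpt : IsCompact (Metric.closedBall c0 δ) := isCompact_closedBall _ _
    have h1 : ∀ j, ∃ C, ∀ c ∈ Metric.closedBall c0 δ, |Psi Φ v j k c| ≤ C := by
      intro j
      have h2 : ContinuousOn (Psi Φ v j k) (Metric.closedBall c0 δ) := fun c hc =>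
        (Psi_ana hr2 v j k c (by
          rw [Metric.mem_closedBall] at hc
          rw [Metric.mem_ball]
          linarith)).continuousAt.continuousWithinAt
      obtain ⟨C, hC⟩ := hcpt.exists_bound_of_continuousOn h2
      exact ⟨C, fun c hc => hC c hc⟩
    choose C hC using h1
    refine ⟨∑ j, |C j|, fun j c hc => ?_⟩
    refine (hC j c (Metric.mem_closedBall.2 (hin hδ0.le hc))).trans ((le_abs_self _).trans ?_)
    exact Finset.single_le_sum (f := fun j => |C j|) (fun j _ => abs_nonneg _) (mem_univ j)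
  · refine ⟨F, η, hη, hFK, fun u hu => ?_⟩
    obtain ⟨i, hi, hi2⟩ := hbig u (by rw [mem_sphere_zero_iff_norm]; exact hu)
    exact ⟨i, hi, fun c hc => hi2 c fun j => (hc j).trans hδδ'⟩

end Pool.Agent.Q270.RT
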