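import Pool.Agent.Q270.RT.Ana
import Pool.Agent.Q270.MB.TW

/-!
# Sums over the integer points of a box
-/

set_option autoImplicit false

namespace Pool.Agent.Q270.RT

open Finset Real Filter Topology MeasureTheory
open Pool.Agent.H469R2.NK (e norm_e e_add)
open Pool.Agent.Y951.TU (hat lin lin_apply unif unif_prob integral_unif)
open Pool.Agent.Q270.MB (SizeB)

variable {n m : ℕ}

/-- an interval which is shifted by `w` -/
lemma Ico_diff (p : ℤ) (ℓ : ℕ) (w : ℤ) :
    ((Finset.Ico p (p + ℓ)).filter (fun t => t - w ∉ Finset.Ico p (p + ℓ))).card ≤ w.natAbs := by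
  rcases le_or_gt 0 w with h | h
  · have h1 : (Finset.Ico p (p + ℓ)).filter (fun t => t - w ∉ Finset.Ico p (p + ℓ)) ⊆
        Finset.Ico p (p + w) := by
      intro t ht
      rw [mem_filter, Finset.mem_Ico, Finset.mem_Ico] at ht
      rw [Finset.mem_Ico]
      omega
    refine (card_le_card h1).trans ?_
    rw [Int.card_Ico]
    omega
  · have h1 : (Finset.Ico p (p + ℓ)).filter (fun t => t - w ∉ Finset.Ico p (p + ℓ)) ⊆
        Finset.Ico (p + ℓ + w) (p + ℓ) := by
      intro t ht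
      rw [mem_filter, Finset.mem_Ico, Finset.mem_Ico] at ht
      rw [Finset.mem_Ico]
      omega
    refine (card_le_card h1).trans ?_
    rw [Int.card_Ico]
    omega

/-- the number of the points of a box whose `i`-th coordinate is in a given set -/
lemma card_coord (J : Fin n → Finset ℤ) (i : Fin n) (S : Finset ℤ) :
    ((Fintype.piFinset J).filter (fun a => a i ∈ S)).card * (J i).card =
      ((J i) ∩ S).card * (Fintype.piFinset J).card := by
  classical
  have h1 : (Fintype.piFinset J).filter (fun a => a i ∈ S) =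
      Fintype.piFinset (Function.update J i (J i ∩ S)) := by
    ext a
    rw [mem_filter, Fintype.mem_piFinset, Fintype.mem_piFinset]
    constructor
    · rintro ⟨h1, h2⟩ i'
      by_cases hi : i' = i
      · subst hi
        rw [Function.update_self, mem_inter]
        exact ⟨h1 i', h2⟩
      · rw [Function.update_of_ne hi]
        exact h1 i'
    · intro h
      have hi := h i
      rw [Function.update_self, mem_inter] at hi
      refine ⟨fun i' => ?_, hi.2⟩
      by_cases hii : i' = i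
      · subst hii
        exact hi.1
      · have := h i'
        rwa [Function.update_of_ne hii] at this
  rw [h1, Fintype.card_piFinset, Fintype.card_piFinset]
  rw [← Finset.mul_prod_erase univ (fun i' => (Function.update J i (J i ∩ S) i').card) (mem_univ i),
    ← Finset.mul_prod_erase univ (fun i' => (J i').card) (mem_univ i)]
  have h2 : ∏ i' ∈ univ.erase i, (Function.update J i (J i ∩ S) i').card =
      ∏ i' ∈ univ.erase i, (J i').card := by
    refine prod_congr rfl fun i' hi' => ?_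
    rw [Function.update_of_ne (Finset.ne_of_mem_erase hi')]
  rw [h2, Function.update_self]
  ring

/-- the boxes -/
structure BoxJ (c0 : Fin n → ℝ) (δ γ : ℝ) (M : ℕ) (J : Fin n → Finset ℤ) : Prop where
  mem : ∀ i, ∀ t ∈ J i, |(t : ℝ) / M - c0 i| ≤ δ / 2
  line : ∀ i, ∃ (p : ℤ) (ℓ : ℕ), J i = Finset.Ico p (p + ℓ) ∧ γ * M ≤ ℓ

/-- shifting the summation -/
lemma box_shift {c0 : Fin n → ℝ} {δ γ : ℝ} {M : ℕ} {J : Fin n → Finset ℤ}
    (hJ : BoxJ c0 δ γ M J) (hγM : 0 < γ * M) (f : (Fin n → ℤ) → ℂ) (hf : ∀ a, ‖f a‖ ≤ 1)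
    (w : Fin n → ℤ) :
    ‖∑ a ∈ Fintype.piFinset J, f a - ∑ a ∈ Fintype.piFinset J, f (a + w)‖ ≤
      2 * (∑ i, |(w i : ℝ)|) / (γ * M) * (Fintype.piFinset J).card := by
  classical
  set P := Fintype.piFinset J with hP
  set P' := P.image (fun a => a + w) with hP'
  have hinj : Function.Injective (fun a : Fin n → ℤ => a + w) := add_left_injective w
  have h1 : ∑ a ∈ P, f (a + w) = ∑ a ∈ P', f a := by
    rw [hP', sum_image (fun x _ y _ h => hinj h)]
  have hcard' : P'.card = P.card := card_image_of_injective _ hinj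
  have hmem' : ∀ a, a ∈ P' ↔ a - w ∈ P := by
    intro a
    rw [hP', mem_image]
    constructor
    · rintro ⟨x, hx, rfl⟩
      simpa using hx
    · intro h
      exact ⟨a - w, h, by simp⟩
  have h2 : ∑ a ∈ P, f a - ∑ a ∈ P', f a = ∑ a ∈ P \ P', f a - ∑ a ∈ P' \ P, f a := by
    have e1 : ∑ a ∈ P, f a = ∑ a ∈ P \ P', f a + ∑ a ∈ P ∩ P', f a := by
      rw [← sum_union (disjoint_sdiff_inter P P'), Finset.sdiff_union_inter]
    have e2 : ∑ a ∈ P', f a = ∑ a ∈ P' \ P, f a + ∑ a ∈ P ∩ P', f a := by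
      rw [inter_comm, ← sum_union (disjoint_sdiff_inter P' P), Finset.sdiff_union_inter]
    rw [e1, e2]
    ring
  have h3 : (P \ P').card = (P' \ P).card := by
    have e1 := card_sdiff_add_card_inter P P'
    have e2 := card_sdiff_add_card_inter P' P
    rw [inter_comm] at e2
    omega
  have h4 : ((P \ P').card : ℝ) ≤ (∑ i, |(w i : ℝ)|) / (γ * M) * P.card := by
    have hsub : P \ P' ⊆ univ.biUnion fun i => P.filter (fun a => a i - w i ∉ J i) := by
      intro a ha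
      rw [Finset.mem_sdiff, hmem'] at ha
      obtain ⟨ha1, ha2⟩ := ha
      rw [hP, Fintype.mem_piFinset] at ha2
      push Not at ha2
      obtain ⟨i, hi⟩ := ha2
      rw [mem_biUnion]
      exact ⟨i, mem_univ _, mem_filter.2 ⟨ha1, hi⟩⟩
    have hone : ∀ i, ((P.filter (fun a => a i - w i ∉ J i)).card : ℝ) ≤
        |(w i : ℝ)| / (γ * M) * P.card := by
      intro i
      obtain ⟨p, ℓ, hp, hℓ⟩ := hJ.line i
      have hℓ0 : (0 : ℝ) < ℓ := lt_of_lt_of_le hγM hℓ
      set S : Finset ℤ := (J i).filter (fun t => t - w i ∉ J i) with hS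
      have e1 : P.filter (fun a => a i - w i ∉ J i) = P.filter (fun a => a i ∈ S) := by
        refine filter_congr fun a ha => ?_
        rw [hS, mem_filter]
        rw [hP, Fintype.mem_piFinset] at ha
        exact ⟨fun h => ⟨ha i, h⟩, fun h => h.2⟩
      have e2 := card_coord J i S
      have e3 : J i ∩ S = S := by
        rw [inter_eq_right, hS]
        exact filter_subset _ _
      have e4 : (J i).card = ℓ := by
        rw [hp, Int.card_Ico]
        omega
      have e5 : S.card ≤ (w i).natAbs := by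
        rw [hS, hp]
        exact Ico_diff p ℓ (w i)
      rw [e3, e4] at e2
      rw [e1]
      have e6 : ((P.filter (fun a => a i ∈ S)).card : ℝ) * ℓ ≤ |(w i : ℝ)| * P.card := by
        have e7 : ((P.filter (fun a => a i ∈ S)).card : ℝ) * ℓ = S.card * P.card := by
          exact_mod_cast e2
        rw [e7]
        have e8 : ((S.card : ℕ) : ℝ) ≤ |(w i : ℝ)| := by
          have : ((S.card : ℕ) : ℝ) ≤ ((w i).natAbs : ℝ) := by exact_mod_cast e5
          rw [Nat.cast_natAbs] at this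
          push_cast at this
          exact this
        exact mul_le_mul_of_nonneg_right e8 (Nat.cast_nonneg _)
      have e9 : (((P.filter (fun a => a i ∈ S)).card : ℕ) : ℝ) ≤ |(w i : ℝ)| / ℓ * P.card := by
        rw [div_mul_eq_mul_div, le_div_iff₀ hℓ0]
        exact e6
      refine e9.trans (mul_le_mul_of_nonneg_right ?_ (Nat.cast_nonneg _))
      exact div_le_div_of_nonneg_left (abs_nonneg _) hγM hℓ
    calc ((P \ P').card : ℝ) ≤
          ((univ.biUnion fun i => P.filter (fun a => a i - w i ∉ J i)).card : ℝ) := by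
          exact_mod_cast card_le_card hsub
      _ ≤ ((∑ i, (P.filter (fun a => a i - w i ∉ J i)).card : ℕ) : ℝ) := by
          exact_mod_cast card_biUnion_le
      _ = ∑ i, ((P.filter (fun a => a i - w i ∉ J i)).card : ℝ) := by push_cast; rfl
      _ ≤ ∑ i, |(w i : ℝ)| / (γ * M) * P.card := sum_le_sum fun i _ => hone i
      _ = _ := by rw [← sum_mul, ← sum_div]
  rw [h1, h2]
  calc ‖∑ a ∈ P \ P', f a - ∑ a ∈ P' \ P, f a‖ ≤ ‖∑ a ∈ P \ P', f a‖ + ‖∑ a ∈ P' \ P, f a‖ :=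
        norm_sub_le _ _
    _ ≤ ((P \ P').card : ℝ) + ((P' \ P).card : ℝ) := by
        gcongr
        · refine (norm_sum_le _ _).trans ((sum_le_sum fun a _ => hf a).trans (le_of_eq ?_))
          rw [sum_const, nsmul_eq_mul, mul_one]
        · refine (norm_sum_le _ _).trans ((sum_le_sum fun a _ => hf a).trans (le_of_eq ?_))
          rw [sum_const, nsmul_eq_mul, mul_one]
    _ = 2 * ((P \ P').card : ℝ) := by
        rw [← h3]
        ring
    _ ≤ 2 * ((∑ i, |(w i : ℝ)|) / (γ * M) * P.card) := by gcongr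
    _ = _ := by ring

/-- the measures -/
def SB (c0 : Fin n → ℝ) (δ γ : ℝ) (Φ : Fin m → (Fin n → ℝ) → ℝ) (M : ℕ) :
    Set (Measure (Fin m → ℝ)) :=
  {μ | ∃ J : Fin n → Finset ℤ, BoxJ c0 δ γ M J ∧ (Fintype.piFinset J).Nonempty ∧
    μ = unif (Fintype.piFinset J) (fun a j => Φ j (fun i => (a i : ℝ) / M))}

lemma SB_prob (c0 : Fin n → ℝ) (δ γ : ℝ) (Φ : Fin m → (Fin n → ℝ) → ℝ) (M : ℕ)
    (_hM : 1 ≤ M) (μ : Measure (Fin m → ℝ)) (hμ : μ ∈ SB c0 δ γ Φ M) :
    IsProbabilityMeasure μ := by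
  obtain ⟨J, _, hJ, rfl⟩ := hμ
  exact unif_prob hJ _

theorem size_box {c0 : Fin n → ℝ} {δ : ℝ} (hδ : 0 < δ) {K : ℕ}
    {ψ : (Fin n → ℤ) → Fin m → ℕ → (Fin n → ℝ) → ℝ} (H : Chain c0 δ K ψ) (γ κ A : ℝ)
    (hγ : 0 < γ) (hκ : 0 < κ) (hK3 : 3 ≤ K) (hKA : A + 2 ≤ K) :
    SizeB m (SB c0 δ γ (fun j => ψ 0 j 0)) κ A := by
  classical
  obtain ⟨F, ρ', hρ', M1, hM1⟩ := line_sum H κ A hκ hK3 hKA
  set ρ : ℝ := min ρ' 1 with hρ
  have hρ0 : 0 < ρ := lt_min hρ' one_pos
  have hρ1 : ρ ≤ 1 := min_le_right _ _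
  set V : ℝ := 1 + ∑ v ∈ F, ∑ i, |(v i : ℝ)| with hV
  have hV1 : 1 ≤ V := by
    have : 0 ≤ ∑ v ∈ F, ∑ i, |(v i : ℝ)| :=
      sum_nonneg fun v _ => sum_nonneg fun i _ => abs_nonneg _
    linarith
  have hVv : ∀ v ∈ F, ∑ i, |(v i : ℝ)| ≤ V := fun v hv => by
    have := Finset.single_le_sum (f := fun v : Fin n → ℤ => ∑ i, |(v i : ℝ)|)
      (fun v _ => sum_nonneg fun i _ => abs_nonneg _) hv
    linarith
  set C : ℝ := 2 + 2 * V / γ with hC
  have hC0 : 0 < C := by positivity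
  have hcast : Tendsto (fun M : ℕ => (M : ℝ)) atTop atTop := tendsto_natCast_atTop_atTop
  have hpow : ∀ a : ℝ, 0 < a → Tendsto (fun M : ℕ => (M : ℝ) ^ a) atTop atTop := fun a ha =>
    (tendsto_rpow_atTop ha).comp hcast
  have hev : ∀ᶠ M : ℕ in atTop, M1 ≤ M ∧ (1 : ℝ) ≤ M ∧ C ≤ (M : ℝ) ^ (ρ / 4) ∧
      2 ≤ (M : ℝ) ^ (1 - ρ / 2) ∧ 2 * V / δ ≤ (M : ℝ) ^ (ρ / 2) := by
    filter_upwards [eventually_ge_atTop M1, hcast.eventually_ge_atTop 1,
      (hpow (ρ / 4) (by positivity)).eventually_ge_atTop C,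
      (hpow (1 - ρ / 2) (by linarith)).eventually_ge_atTop 2,
      (hpow (ρ / 2) (by positivity)).eventually_ge_atTop (2 * V / δ)] with M a1 a2 a3 a4 a5
    exact ⟨a1, a2, a3, a4, a5⟩
  obtain ⟨M0, hM0⟩ := eventually_atTop.1 hev
  refine ⟨ρ / 4, by positivity, M0, ?_⟩
  intro M hM μ hμ l hl1 hl2
  obtain ⟨b1, b2, b3, b4, b5⟩ := hM0 M hM
  obtain ⟨J, hJ, hJne, rfl⟩ := hμ
  have hMp : (0 : ℝ) < M := by linarith
  have hγM : 0 < γ * M := by positivity
  set lam : Fin m → ℝ := fun j => (l j : ℝ) with hlam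
  obtain ⟨j0, hj0⟩ := hl1
  have hn1 : (M : ℝ) ^ κ ≤ ‖lam‖ := by
    refine hj0.trans ?_
    rw [← Real.norm_eq_abs]
    exact norm_le_pi_norm lam j0
  have hn2 : ‖lam‖ ≤ (M : ℝ) ^ A := by
    rw [pi_norm_le_iff_of_nonneg (by positivity)]
    intro j
    rw [Real.norm_eq_abs]
    exact hl2 j
  obtain ⟨v, hvF, hv⟩ := hM1 M b1 lam hn1 hn2
  set L : ℕ := ⌊(M : ℝ) ^ (1 - ρ / 2)⌋₊ with hL
  have hL1 : (L : ℝ) ≤ (M : ℝ) ^ (1 - ρ / 2) := Nat.floor_le (by positivity)
  have hL2 : (M : ℝ) ^ (1 - ρ / 2) / 2 ≤ L := by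
    have := Nat.lt_floor_add_one ((M : ℝ) ^ (1 - ρ / 2))
    rw [← hL] at this
    linarith
  have hL0 : (0 : ℝ) < L := by linarith
  have hLM : L ≤ M := by
    have h1 : (L : ℝ) ≤ M := by
      refine hL1.trans ?_
      calc (M : ℝ) ^ (1 - ρ / 2) ≤ (M : ℝ) ^ (1 : ℝ) :=
            Real.rpow_le_rpow_of_exponent_le b2 (by linarith)
        _ = M := Real.rpow_one _
    exact_mod_cast h1
  set f : (Fin n → ℤ) → ℂ := fun a => e (∑ j, lam j * ψ 0 j 0 (fun i => (a i : ℝ) / M)) with hf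
  have hf1 : ∀ a, ‖f a‖ ≤ 1 := fun a => (norm_e _).le
  set P := Fintype.piFinset J with hP
  set NT : ℝ := (P.card : ℝ) with hNT
  have hNT0 : 0 < NT := by
    rw [hNT]
    exact_mod_cast hJne.card_pos
  -- the sums along the lines
  have hline : ∀ a ∈ P, ‖∑ t ∈ range L, f (a + (t : ℤ) • v)‖ ≤ (M : ℝ) ^ (1 - ρ) := by
    intro a ha
    rw [hP, Fintype.mem_piFinset] at ha
    have h1 := hv (fun i => (a i : ℝ) / M) L hLM (by
      intro t ht0 htL i
      have h2 := hJ.mem i (a i) (ha i)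
      have h3 : |t / M * (v i : ℝ)| ≤ δ / 2 := by
        rw [abs_mul, abs_of_nonneg (by positivity)]
        have h4 : |(v i : ℝ)| ≤ V := (Finset.single_le_sum (f := fun i => |(v i : ℝ)|)
          (fun i _ => abs_nonneg _) (mem_univ i)).trans (hVv v hvF)
        calc t / M * |(v i : ℝ)| ≤ ((M : ℝ) ^ (1 - ρ / 2)) / M * V := by
              gcongr
              exact htL.trans hL1
          _ = (M : ℝ) ^ (-(ρ / 2)) * V := by
              congr 1
              rw [sub_eq_add_neg, Real.rpow_add hMp, Real.rpow_one]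
              field_simp
          _ ≤ δ / 2 := by
              rw [Real.rpow_neg hMp.le, inv_mul_le_iff₀ (by positivity)]
              rw [div_le_iff₀ hδ] at b5
              linarith
      show |(a i : ℝ) / M + (t / M) * (v i : ℝ) - c0 i| ≤ δ
      calc |(a i : ℝ) / M + (t / M) * (v i : ℝ) - c0 i| =
            |((a i : ℝ) / M - c0 i) + (t / M) * (v i : ℝ)| := by congr 1; ring
        _ ≤ |(a i : ℝ) / M - c0 i| + |(t / M) * (v i : ℝ)| := abs_add_le _ _
        _ ≤ δ := by linarith)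
    refine le_trans (le_of_eq ?_) (h1.trans
      (Real.rpow_le_rpow_of_exponent_le b2 (by linarith [min_le_left ρ' 1])))
    congr 1
    refine sum_congr rfl fun t _ => ?_
    rw [hf]
    simp only
    congr 1
    refine sum_congr rfl fun j _ => ?_
    congr 2
    funext i
    show (((a i + (t : ℤ) • v i : ℤ)) : ℝ) / M = (a i : ℝ) / M + ((t : ℝ) / M) * (v i : ℝ)
    push_cast
    rw [smul_eq_mul]
    push_cast
    ring
  have hshift : ∀ t ∈ range L, ‖∑ a ∈ P, f a - ∑ a ∈ P, f (a + (t : ℤ) • v)‖ ≤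
      2 * (L * V) / (γ * M) * NT := by
    intro t ht
    rw [mem_range] at ht
    refine (box_shift hJ hγM f hf1 ((t : ℤ) • v)).trans ?_
    have h1 : ∑ i, |((((t : ℤ) • v) i : ℤ) : ℝ)| ≤ L * V := by
      have h2 : ∀ i, |((((t : ℤ) • v) i : ℤ) : ℝ)| = t * |(v i : ℝ)| := by
        intro i
        rw [Pi.smul_apply, smul_eq_mul]
        push_cast
        rw [abs_mul, Nat.abs_cast]
      simp only [h2]
      rw [← mul_sum]
      have h3 : (t : ℝ) ≤ L := by exact_mod_cast ht.le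
      exact mul_le_mul h3 (hVv v hvF) (sum_nonneg fun i _ => abs_nonneg _) hL0.le
    gcongr
  have hsum : L * ‖∑ a ∈ P, f a‖ ≤ NT * (M : ℝ) ^ (1 - ρ) + L * (2 * (L * V) / (γ * M) * NT) := by
    have h1 : (L : ℂ) * ∑ a ∈ P, f a = ∑ a ∈ P, ∑ t ∈ range L, f (a + (t : ℤ) • v) +
        ∑ t ∈ range L, (∑ a ∈ P, f a - ∑ a ∈ P, f (a + (t : ℤ) • v)) := by
      rw [sum_sub_distrib, sum_const, card_range, nsmul_eq_mul, sum_comm]
      ring
    calc L * ‖∑ a ∈ P, f a‖ = ‖(L : ℂ) * ∑ a ∈ P, f a‖ := by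
          rw [norm_mul, Complex.norm_natCast]
      _ ≤ ‖∑ a ∈ P, ∑ t ∈ range L, f (a + (t : ℤ) • v)‖ +
          ‖∑ t ∈ range L, (∑ a ∈ P, f a - ∑ a ∈ P, f (a + (t : ℤ) • v))‖ := by
          rw [h1]
          exact norm_add_le _ _
      _ ≤ NT * (M : ℝ) ^ (1 - ρ) + L * (2 * (L * V) / (γ * M) * NT) := by
          gcongr
          · refine (norm_sum_le _ _).trans ((sum_le_sum hline).trans (le_of_eq ?_))
            rw [sum_const, nsmul_eq_mul]
          · refine (norm_sum_le _ _).trans ((sum_le_sum hshift).trans (le_of_eq ?_))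
            rw [sum_const, nsmul_eq_mul, card_range]
  have hfin : ‖∑ a ∈ P, f a‖ ≤ NT * (C * (M : ℝ) ^ (-(ρ / 2))) := by
    have h1 : ‖∑ a ∈ P, f a‖ ≤ NT * ((M : ℝ) ^ (1 - ρ) / L + 2 * (L * V) / (γ * M)) := by
      have h2 : L * ‖∑ a ∈ P, f a‖ ≤ L * (NT * ((M : ℝ) ^ (1 - ρ) / L +
          2 * (L * V) / (γ * M))) := by
        refine hsum.trans (le_of_eq ?_)
        field_simp
      exact le_of_mul_le_mul_left h2 hL0
    refine h1.trans ?_
    gcongr
    have h3 : (M : ℝ) ^ (1 - ρ) / L ≤ 2 * (M : ℝ) ^ (-(ρ / 2)) := by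
      rw [div_le_iff₀ hL0]
      calc (M : ℝ) ^ (1 - ρ) = (M : ℝ) ^ (-(ρ / 2)) * (M : ℝ) ^ (1 - ρ / 2) := by
            rw [← Real.rpow_add hMp]
            congr 1
            ring
        _ ≤ (M : ℝ) ^ (-(ρ / 2)) * (2 * L) := by
            gcongr
            linarith
        _ = _ := by ring
    have h4 : 2 * (L * V) / (γ * M) ≤ 2 * V / γ * (M : ℝ) ^ (-(ρ / 2)) := by
      calc 2 * (L * V) / (γ * M) = 2 * V / γ * (L / M) := by field_simp
        _ ≤ 2 * V / γ * ((M : ℝ) ^ (1 - ρ / 2) / M) := by gcongr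
        _ = 2 * V / γ * (M : ℝ) ^ (-(ρ / 2)) := by
            congr 1
            rw [sub_eq_add_neg, Real.rpow_add hMp, Real.rpow_one]
            field_simp
    calc (M : ℝ) ^ (1 - ρ) / L + 2 * (L * V) / (γ * M) ≤
          2 * (M : ℝ) ^ (-(ρ / 2)) + 2 * V / γ * (M : ℝ) ^ (-(ρ / 2)) := add_le_add h3 h4
      _ = _ := by rw [hC]; ring
  unfold hat
  rw [integral_unif]
  have h1 : ∀ a : Fin n → ℤ, Pool.Agent.Y933.KD.e (lin m l
      (fun j => ψ 0 j 0 (fun i => (a i : ℝ) / M))) = f a := by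
    intro a
    rw [lin_apply]
    rfl
  rw [sum_congr rfl fun a _ => h1 a, norm_mul, norm_div, norm_one, Complex.norm_natCast]
  rw [← hNT]
  calc 1 / NT * ‖∑ a ∈ P, f a‖ ≤ 1 / NT * (NT * (C * (M : ℝ) ^ (-(ρ / 2)))) := by gcongr
    _ = C * (M : ℝ) ^ (-(ρ / 2)) := by field_simp
    _ ≤ (M : ℝ) ^ (ρ / 4) * (M : ℝ) ^ (-(ρ / 2)) := by gcongr
    _ = (M : ℝ) ^ (-(ρ / 4)) := by
        rw [← Real.rpow_add hMp]
        congr 1
        ring

end Pool.Agent.Q270.RT
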