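import Pool.Agent.Q270.RT.Nondeg
import Pool.Agent.Q270.RT.Box
import Pool.Agent.Q270.MB.Main
import Pool.Agent.Q270.AA.Cell

/-!
# The digits of the coordinates of the powers of the roots, near a configuration
-/

set_option autoImplicit false

namespace Pool.Agent.Q270.RT

open Finset Real Filter Topology MeasureTheory
open Pool.Agent.Y951.TU (unif)
open Pool.Agent.Q270.MB (SizeB Adm disc_rep)
open Pool.Agent.Q270.SR (Disc)
open Pool.Agent.Q270.AA (Jc Jc_mem mem_Jc Jc_box)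

variable {d r n : ℕ}

/-- small joint discrepancy in the windows which start far from the point -/
def GB (σ : Fin n → Fin r) (B : ℕ) (A κ ε : ℝ) (M : ℕ) (x : Fin r → ℝ) : Prop :=
  ∀ b : Fin n → ℕ, (∀ j, 2 ≤ b j ∧ b j ≤ B) → Adm σ b →
    ∀ (s : Fin n → ℕ) (N : ℕ), (∀ j, (M : ℝ) ^ κ ≤ (b j : ℝ) ^ s j) →
    (∀ j, (s j : ℝ) + N ≤ A * log M) → Disc b s N (fun j => x (σ j)) ((log M) ^ (1 / 2 + ε))

lemma Jc_boxJ {c0 : Fin (d + 1) → ℝ} {δ : ℝ} (hδ : 0 < δ) (hδ4 : δ ≤ 1 / 4) {M : ℕ}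
    (hM : 0 < (M : ℝ)) (hδM : 8 ≤ δ * M) : BoxJ c0 δ (δ / 2) M (Jc c0 (δ / 2) M) := by
  refine ⟨fun i t ht => Jc_mem hM ht, fun i => ?_⟩
  obtain ⟨p, ℓ, h1, -, -, h4⟩ := (Jc_box (c0 := c0) (δ := δ / 2) (by positivity) (by linarith) hM
    (by linarith) i).line
  exact ⟨p, ℓ, h1, h4⟩

lemma Jc_card {c0 : Fin (d + 1) → ℝ} {δ : ℝ} (hδ : 0 < δ) (hδ4 : δ ≤ 1 / 4) {M : ℕ}
    (hM : 0 < (M : ℝ)) (hδM : 4 ≤ δ * M) :
    (((Fintype.piFinset (Jc c0 δ M)).card : ℕ) : ℝ) ≤ (M : ℝ) ^ (d + 1) := by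
  rw [Fintype.card_piFinset]
  push_cast
  have h2 : ∀ i, ((Jc c0 δ M i).card : ℝ) ≤ M := by
    intro i
    obtain ⟨p, ℓ, h3, h4, -, -⟩ := (Jc_box (c0 := c0) hδ hδ4 hM hδM i).line
    rw [h3, Int.card_Ico]
    have : (p + (ℓ : ℤ) - p).toNat = ℓ := by omega
    rw [this]
    exact_mod_cast h4
  calc ∏ i, ((Jc c0 δ M i).card : ℝ) ≤ ∏ _i : Fin (d + 1), (M : ℝ) :=
        Finset.prod_le_prod (fun i _ => Nat.cast_nonneg _) fun i _ => h2 i
    _ = (M : ℝ) ^ (d + 1) := by rw [prod_const, card_univ, Fintype.card_fin]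

/-- most of the polynomials near a configuration -/
theorem cell (σ : Fin n → Fin r) (hn : 1 ≤ n) (B : ℕ) (A κ ε T : ℝ) (hκ : 0 < κ) (hε : 0 < ε)
    {c0 : Fin (d + 1) → ℝ} {z : Fin r → ℂ} {k : Fin r → ℕ} {τ : Fin r → Bool}
    (hc : Conf c0 z k τ) :
    ∃ U ∈ 𝓝 (c0, z), ∃ M₀ : ℕ, ∀ M : ℕ, M₀ ≤ M → ∀ Ts : Finset (Fin (d + 1) → ℤ),
      (∀ a ∈ Ts, ∃ w : Fin r → ℂ, ((fun i => (a i : ℝ) / M), w) ∈ U ∧
        (∀ j, cv (fun i => (a i : ℝ) / M) (w j) = 0) ∧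
        ¬ GB σ B A κ ε M (fun j => part (τ j) (w j ^ k j))) →
      (Ts.card : ℝ) ≤ (M : ℝ) ^ (d + 1) * (log M) ^ (-T) := by
  classical
  set Am : ℝ := (|A| + |A + 1|) * log (max B 2) with hAm
  have hAm0 : 0 ≤ Am := by
    have h1 : 0 ≤ log (max (B : ℝ) 2) :=
      Real.log_nonneg (le_trans (by norm_num) (le_max_right _ _))
    positivity
  set K : ℕ := ⌈Am + 4⌉₊ with hK
  have hKc : Am + 2 + 2 ≤ K := by
    have := Nat.le_ceil (Am + 4)
    rw [← hK] at this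
    linarith
  have hK3 : 3 ≤ K := by
    have h1 : (3 : ℝ) ≤ K := by linarith
    exact_mod_cast h1
  obtain ⟨Φ, hΦ, δ, hδ, hδ4, hchain⟩ := conf_chain hc K (1 / 4) (by norm_num)
  have hsize := size_box hδ hchain (δ / 2) (κ / 2) (Am + 2) (by positivity) (by positivity) hK3 hKc
  obtain ⟨M1, hM1⟩ := disc_rep (ι := Fin (d + 1) → ℤ) σ (SB_prob c0 δ (δ / 2) _) hκ hAm0 hsize hn B
    A T ε hε le_rfl
  obtain ⟨M2, hM2⟩ := exists_nat_gt (8 / δ)
  refine ⟨(Metric.ball c0 (δ / 4) ×ˢ Set.univ) ∩ {v | ∀ j, cv v.1 (v.2 j) = 0 → v.2 j = Φ j v.1},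
    ?_, max M1 (max M2 1), ?_⟩
  · exact Filter.inter_mem (prod_mem_nhds (Metric.ball_mem_nhds _ (by positivity))
      Filter.univ_mem) hΦ
  intro M hM Ts hTs
  have hMM1 : M1 ≤ M := le_of_max_le_left hM
  have hMM2 : M2 ≤ M := le_of_max_le_left (le_of_max_le_right hM)
  have hM1' : 1 ≤ M := le_of_max_le_right (le_of_max_le_right hM)
  have hMR : (1 : ℝ) ≤ M := by exact_mod_cast hM1'
  have hMp : (0 : ℝ) < M := by linarith
  have hδM : 8 ≤ δ * M := by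
    have h2 : (M2 : ℝ) ≤ M := by exact_mod_cast hMM2
    have h3 : 8 / δ < M := lt_of_lt_of_le hM2 h2
    rw [div_lt_iff₀ hδ] at h3
    linarith
  have hbox := Jc_boxJ (c0 := c0) hδ hδ4 hMp hδM
  have hne : (Fintype.piFinset (Jc c0 (δ / 2) M)).Nonempty := by
    rw [Fintype.piFinset_nonempty]
    intro i
    obtain ⟨p, ℓ, h1, h2⟩ := hbox.line i
    have h3 : (0 : ℝ) < ℓ := by
      have : 0 < δ / 2 * M := by positivity
      linarith
    have h4 : 0 < ℓ := by exact_mod_cast h3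
    rw [h1, Finset.nonempty_Ico]
    omega
  have key := hM1 M hMM1 (Fintype.piFinset (Jc c0 (δ / 2) M))
    (fun a (j : Fin r) => part (τ j) (Φ j (fun i => (a i : ℝ) / M) ^ k j)) hne
    ⟨_, hbox, hne, rfl⟩
  have hsub : Ts ⊆ (Fintype.piFinset (Jc c0 (δ / 2) M)).filter (fun a =>
      ¬ GB σ B A κ ε M (fun j => part (τ j) (Φ j (fun i => (a i : ℝ) / M) ^ k j))) := by
    intro a ha
    obtain ⟨w, hwU, hw0, hwn⟩ := hTs a ha
    have h2 : ∀ j, w j = Φ j (fun i => (a i : ℝ) / M) := fun j => hwU.2 j (hw0 j)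
    rw [mem_filter, Fintype.mem_piFinset]
    refine ⟨fun i => ?_, ?_⟩
    · apply mem_Jc hMp (by linarith)
      have h3 := hwU.1.1
      rw [Metric.mem_ball, dist_pi_lt_iff (by positivity)] at h3
      have h4 := h3 i
      rw [Real.dist_eq] at h4
      rw [show δ / 2 / 2 = δ / 4 by ring]
      exact h4
    · simp only [h2] at hwn
      exact hwn
  have hcard := Jc_card (c0 := c0) (δ := δ / 2) (by positivity) (by linarith) hMp (by linarith)
  have hlog : 0 ≤ log (M : ℝ) := Real.log_nonneg hMR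
  calc (Ts.card : ℝ) ≤ (((Fintype.piFinset (Jc c0 (δ / 2) M)).filter (fun a =>
      ¬ GB σ B A κ ε M (fun j => part (τ j) (Φ j (fun i => (a i : ℝ) / M) ^ k j)))).card : ℝ) := by
        exact_mod_cast card_le_card hsub
    _ ≤ (Fintype.piFinset (Jc c0 (δ / 2) M)).card * (log M) ^ (-T) := by
        refine le_trans (Nat.cast_le.2 (Finset.card_le_card fun x hx => ?_)) key
        simp only [Finset.mem_filter] at hx ⊢
        exact hx
    _ ≤ (M : ℝ) ^ (d + 1) * (log M) ^ (-T) := by gcongr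

end Pool.Agent.Q270.RT
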