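import Pool.Agent.Q270.RT.Root
import Pool.Agent.Q270.AA.Meas

/-!
# The polynomials with a multiple complex root, and the divided differences
-/

set_option autoImplicit false

namespace Pool.Agent.Q270.RT

open Finset Real Filter Topology MeasureTheory
open scoped Pointwise
open Pool.Agent.Q270.AA (Cu Cu_closed Cu_bounded)

variable {d : ℕ}

/-- the degenerate polynomials in the cube -/
def Zc (d : ℕ) : Set (Fin (d + 1) → ℝ) :=
  {c | c ∈ Cu d ∧ (c (Fin.last d) = 0 ∨ ∃ z : ℂ, cv c z = 0 ∧ cd c z = 0)}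

/-- the roots are bounded -/
lemma root_bound (hd : 1 ≤ d) {c : Fin (d + 1) → ℝ} (hc : c ∈ Cu d) {η : ℝ} (hη : 0 < η)
    (hη1 : η ≤ 1) (hcd : η ≤ |c (Fin.last d)|) {z : ℂ} (hz : cv c z = 0) :
    ‖z‖ ≤ (d + 1) / η := by
  by_contra hcon
  push Not at hcon
  have hx1 : 1 < ‖z‖ := by
    refine lt_of_le_of_lt ?_ hcon
    rw [le_div_iff₀ hη]
    have : (0 : ℝ) ≤ d := Nat.cast_nonneg d
    linarith
  unfold cv at hz
  rw [Fin.sum_univ_castSucc] at hz
  have h1 : ‖(c (Fin.last d) : ℂ) * z ^ (Fin.last d : ℕ)‖ =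
      ‖∑ i : Fin d, (c i.castSucc : ℂ) * z ^ (i.castSucc : ℕ)‖ := by
    have : (c (Fin.last d) : ℂ) * z ^ (Fin.last d : ℕ) =
      -∑ i : Fin d, (c i.castSucc : ℂ) * z ^ (i.castSucc : ℕ) := by
      rw [eq_neg_iff_add_eq_zero, add_comm]
      exact hz
    rw [this, norm_neg]
  have h2 : ‖∑ i : Fin d, (c i.castSucc : ℂ) * z ^ (i.castSucc : ℕ)‖ ≤ d * ‖z‖ ^ (d - 1) := by
    calc ‖∑ i : Fin d, (c i.castSucc : ℂ) * z ^ (i.castSucc : ℕ)‖ ≤
          ∑ i : Fin d, ‖(c i.castSucc : ℂ) * z ^ (i.castSucc : ℕ)‖ := norm_sum_le _ _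
      _ ≤ ∑ _i : Fin d, ‖z‖ ^ (d - 1) := by
          refine sum_le_sum fun i _ => ?_
          rw [norm_mul, norm_pow, Complex.norm_real, Real.norm_eq_abs]
          calc |c i.castSucc| * ‖z‖ ^ (i.castSucc : ℕ) ≤ 1 * ‖z‖ ^ (d - 1) := by
                apply mul_le_mul (hc _) _ (by positivity) zero_le_one
                apply pow_le_pow_right₀ hx1.le
                rw [Fin.val_castSucc]
                omega
            _ = _ := one_mul _
      _ = d * ‖z‖ ^ (d - 1) := by rw [sum_const, card_univ, Fintype.card_fin, nsmul_eq_mul]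
  have h3 : η * ‖z‖ * ‖z‖ ^ (d - 1) ≤ ‖(c (Fin.last d) : ℂ) * z ^ (Fin.last d : ℕ)‖ := by
    rw [norm_mul, norm_pow, Fin.val_last, mul_assoc, ← pow_succ', Complex.norm_real,
      Real.norm_eq_abs]
    have : d - 1 + 1 = d := by omega
    rw [this]
    gcongr
  rw [h1] at h3
  have h4 : 0 < ‖z‖ ^ (d - 1) := by positivity
  have h5 : η * ‖z‖ ≤ d := by
    by_contra h6
    push Not at h6
    have := mul_lt_mul_of_pos_right h6 h4
    linarith
  rw [div_lt_iff₀ hη] at hcon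
  linarith

lemma Zc_closed (hd : 1 ≤ d) : IsClosed (Zc d) := by
  rw [← isOpen_compl_iff, isOpen_iff_mem_nhds]
  intro c hc
  by_cases hcC : c ∈ Cu d
  swap
  · filter_upwards [(Cu_closed d).isOpen_compl.mem_nhds hcC] with c' hc' hZ
    exact hc' hZ.1
  have hc' : ¬ (c (Fin.last d) = 0 ∨ ∃ z : ℂ, cv c z = 0 ∧ cd c z = 0) :=
    fun h => hc ⟨hcC, h⟩
  push Not at hc'
  obtain ⟨hl, hx⟩ := hc'
  set η : ℝ := |c (Fin.last d)| / 2 with hη
  have hl0 : 0 < |c (Fin.last d)| := abs_pos.2 hl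
  have hη0 : 0 < η := by positivity
  have hη1 : η ≤ 1 := by
    have := hcC (Fin.last d)
    rw [hη]
    linarith
  have hK : IsCompact (Metric.closedBall (0 : ℂ) ((d + 1) / η)) := isCompact_closedBall _ _
  have h1 : ∀ᶠ c' in 𝓝 c, ∀ z ∈ Metric.closedBall (0 : ℂ) (((d : ℝ) + 1) / η),
      0 < ‖cv c' z‖ + ‖cd c' z‖ := by
    refine hK.eventually_forall_of_forall_eventually fun x _ => ?_
    have h2 : Continuous (fun v : (Fin (d + 1) → ℝ) × ℂ => ‖cv v.1 v.2‖ + ‖cd v.1 v.2‖) :=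
      cv_cont.norm.add cd_cont.norm
    apply h2.continuousAt.eventually (lt_mem_nhds _)
    by_cases h3 : cv c x = 0
    · have := norm_pos_iff.2 (hx x h3)
      have h4 := norm_nonneg (cv c x)
      simp only
      linarith
    · have := norm_pos_iff.2 h3
      have h4 := norm_nonneg (cd c x)
      simp only
      linarith
  have h3 : ∀ᶠ c' : Fin (d + 1) → ℝ in 𝓝 c, η < |c' (Fin.last d)| := by
    have h4 : Continuous fun c' : Fin (d + 1) → ℝ => |c' (Fin.last d)| := by fun_prop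
    exact h4.continuousAt.eventually (lt_mem_nhds (by rw [hη]; linarith))
  filter_upwards [h1, h3] with c' g1 g3
  rintro ⟨g4, g5⟩
  rcases g5 with g5 | ⟨x, g5, g6⟩
  · rw [g5, abs_zero] at g3
    linarith
  · have g7 := root_bound hd g4 hη0 hη1 g3.le g5
    have g8 := g1 x (mem_closedBall_zero_iff.2 g7)
    rw [g5, g6, norm_zero, add_zero] at g8
    exact lt_irrefl _ g8

/-- the fibres are finite up to the plane `c_d = 0` -/
lemma Zc_fibre (hd : 1 ≤ d) (c' : Fin d → ℝ)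
    (hc' : (Fin.cons 0 c' : Fin (d + 1) → ℝ) (Fin.last d) ≠ 0) :
    {t : ℝ | (Fin.cons t c' : Fin (d + 1) → ℝ) ∈ Zc d}.Finite := by
  set c0 : Fin (d + 1) → ℝ := Fin.cons 0 c' with hc0
  have hother : ∀ (t : ℝ) (i : Fin (d + 1)), i ≠ 0 → (Fin.cons t c' : Fin (d + 1) → ℝ) i = c0 i := by
    intro t i hi
    obtain ⟨j, rfl⟩ := Fin.exists_succ_eq.2 hi
    rw [hc0, Fin.cons_succ, Fin.cons_succ]
  have hlast0 : Fin.last d ≠ 0 := by
    intro h
    have := congrArg Fin.val h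
    simp at this
    omega
  have hpv : ∀ (t : ℝ) (x : ℂ), cv (Fin.cons t c' : Fin (d + 1) → ℝ) x = t + cv c0 x := by
    intro t x
    unfold cv
    rw [Fin.sum_univ_succ, Fin.sum_univ_succ, hc0]
    simp
  have hpd : ∀ (t : ℝ) (x : ℂ), cd (Fin.cons t c' : Fin (d + 1) → ℝ) x = cd c0 x := by
    intro t x
    unfold cd
    rw [Fin.sum_univ_succ, Fin.sum_univ_succ, hc0]
    simp
  set q : Polynomial ℂ := ∑ i : Fin (d + 1), Polynomial.C ((c0 i : ℂ) * (i : ℕ)) *
    Polynomial.X ^ ((i : ℕ) - 1) with hq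
  have hqev : ∀ x : ℂ, q.eval x = cd c0 x := by
    intro x
    rw [hq, Polynomial.eval_finsetSum]
    unfold cd
    refine sum_congr rfl fun i _ => ?_
    simp only [Polynomial.eval_mul, Polynomial.eval_C, Polynomial.eval_pow, Polynomial.eval_X]
    ring
  have hq0 : q ≠ 0 := by
    intro h
    have h1 := congrArg (fun p => p.coeff (d - 1)) h
    simp only [hq, Polynomial.finsetSum_coeff, Polynomial.coeff_C_mul_X_pow,
      Polynomial.coeff_zero] at h1
    rw [Fin.sum_univ_castSucc, Finset.sum_eq_zero, zero_add] at h1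
    · rw [Fin.val_last, if_pos rfl] at h1
      have h2 : (d : ℂ) ≠ 0 := by exact_mod_cast (show d ≠ 0 by omega)
      have h3 : ((c0 (Fin.last d) : ℝ) : ℂ) ≠ 0 := by exact_mod_cast hc'
      exact mul_ne_zero h3 h2 h1
    · intro i _
      rw [Fin.val_castSucc]
      rcases Nat.eq_zero_or_pos (i : ℕ) with h2 | h2
      · rw [h2]
        simp
      · rw [if_neg (by have := i.2; omega)]
  have hfin : {x : ℂ | cd c0 x = 0}.Finite := by
    refine (q.roots.toFinset.finite_toSet).subset fun x hx => ?_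
    simp only [Finset.mem_coe, Multiset.mem_toFinset]
    rw [Polynomial.mem_roots hq0, Polynomial.IsRoot, hqev]
    exact hx
  refine (hfin.image fun x => (-cv c0 x).re).subset ?_
  intro t ht
  obtain ⟨-, h1 | ⟨x, h1, h2⟩⟩ := ht
  · exfalso
    rw [hother t _ hlast0] at h1
    exact hc' h1
  · rw [hpv] at h1
    rw [hpd] at h2
    refine ⟨x, h2, ?_⟩
    have h3 : (t : ℂ) = -cv c0 x := eq_neg_of_add_eq_zero_left h1
    simp only
    rw [← h3, Complex.ofReal_re]

theorem Zc_null (hd : 1 ≤ d) : volume (Zc d) = 0 := by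
  have hclosed := Zc_closed hd
  have hmp := (MeasureTheory.volume_preserving_piFinSuccAbove (fun _ : Fin (d + 1) => ℝ) 0).symm
  set g := (MeasurableEquiv.piFinSuccAbove (fun _ : Fin (d + 1) => ℝ) 0).symm with hg
  have hgeq : ∀ v : ℝ × (Fin d → ℝ), g v = (Fin.cons v.1 v.2 : Fin (d + 1) → ℝ) := by
    intro v
    rw [hg]
    funext i
    refine Fin.cases ?_ (fun j => ?_) i
    · simp [MeasurableEquiv.piFinSuccAbove]
    · simp [MeasurableEquiv.piFinSuccAbove]
  rw [← hmp.measure_preimage hclosed.measurableSet.nullMeasurableSet]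
  have hmeas : MeasurableSet (g ⁻¹' Zc d) := g.measurable hclosed.measurableSet
  rw [Measure.volume_eq_prod, ← Measure.prod_swap, Measure.map_apply measurable_swap hmeas,
    Measure.measure_prod_null (measurable_swap hmeas)]
  obtain ⟨i0, hi0⟩ : ∃ i0 : Fin d, i0.succ = Fin.last d := by
    have hlast0 : Fin.last d ≠ 0 := by
      intro h
      have := congrArg Fin.val h
      simp at this
      omega
    exact Fin.exists_succ_eq.2 hlast0
  have hae : ∀ᵐ c' : Fin d → ℝ, c' i0 ≠ 0 := by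
    have h1 := Measure.pi_hyperplane (fun _ : Fin d => (volume : Measure ℝ)) i0 (0 : ℝ)
    rw [ae_iff]
    simp only [ne_eq, not_not]
    exact h1
  filter_upwards [hae] with c' hc'
  have h2 : (Prod.mk c' ⁻¹' (Prod.swap ⁻¹' (g ⁻¹' Zc d))) =
      {t : ℝ | (Fin.cons t c' : Fin (d + 1) → ℝ) ∈ Zc d} := by
    ext t
    simp only [Set.mem_preimage, Prod.swap_prod_mk, Set.mem_ofPred_eq]
    rw [hgeq]
  rw [h2]
  exact (Zc_fibre hd c' (by rw [← hi0, Fin.cons_succ]; exact hc')).measure_zero _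

/-- the divided difference -/
noncomputable def dd (c : Fin (d + 1) → ℝ) (z w : ℂ) : ℂ :=
  ∑ i, (c i : ℂ) * ∑ a ∈ range (i : ℕ), z ^ a * w ^ ((i : ℕ) - 1 - a)

lemma dd_mul (c : Fin (d + 1) → ℝ) (z w : ℂ) : dd c z w * (z - w) = cv c z - cv c w := by
  unfold dd cv
  rw [sum_mul, ← sum_sub_distrib]
  refine sum_congr rfl fun i _ => ?_
  rw [mul_assoc, geom_sum₂_mul, mul_sub]

lemma dd_self (c : Fin (d + 1) → ℝ) (z : ℂ) : dd c z z = cd c z := by
  unfold dd cd
  refine sum_congr rfl fun i _ => ?_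
  rw [geom_sum₂_self]

lemma dd_cont : Continuous (fun v : (Fin (d + 1) → ℝ) × ℂ × ℂ => dd v.1 v.2.1 v.2.2) := by
  unfold dd
  fun_prop

/-- different roots -/
lemma dd_zero {c : Fin (d + 1) → ℝ} {z w : ℂ} (hz : cv c z = 0) (hw : cv c w = 0) (h : z ≠ w) :
    dd c z w = 0 := by
  have h1 := dd_mul c z w
  rw [hz, hw, sub_zero] at h1
  exact (mul_eq_zero.1 h1).resolve_right (sub_ne_zero.2 h)

end Pool.Agent.Q270.RT
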