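import Pool.Agent.Q270.RT.Cell
import Pool.Agent.Q270.RT.Meas
import Pool.Agent.Q270.AA.Glob

/-!
# The digits of the powers of all the roots of almost all integer polynomials
-/

set_option autoImplicit false

namespace Pool.Agent.Q270.RT

open Finset Real Filter Topology MeasureTheory
open scoped ComplexConjugate
open Pool.Agent.Q270.MB (Adm MultIndep)
open Pool.Agent.Q270.SR (Disc)
open Pool.Agent.Q270.AA (Cu Cu_closed Cu_bounded lattice_count cube_finite)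

variable {d r n : ℕ}

/-- dropping the first terms -/
lemma Disc_drop {b s : Fin n → ℕ} {N t : ℕ} {z : Fin n → ℝ} {E : ℝ} (ht : t ≤ N)
    (h : Disc b (fun j => s j + t) (N - t) z E) : Disc b s N z (E + t) := by
  intro u hu0 hu1
  have h1 := h u hu0 hu1
  set P : ℝ := ∏ j, u j with hP
  have hP0 : 0 ≤ P := Finset.prod_nonneg fun j _ => hu0 j
  have hP1 : P ≤ 1 := Finset.prod_le_one (fun j _ => hu0 j) fun j _ => hu1 j
  have hsplit : ((range N).filter
        (fun i => ∀ j, Int.fract ((b j : ℝ) ^ (s j + i) * z j) < u j)).card =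
      ((range t).filter (fun i => ∀ j, Int.fract ((b j : ℝ) ^ (s j + i) * z j) < u j)).card +
      ((range (N - t)).filter
        (fun i => ∀ j, Int.fract ((b j : ℝ) ^ (s j + t + i) * z j) < u j)).card := by
    have h1 : range N = range t ∪ (range (N - t)).image (fun i => t + i) := by
      ext i
      simp only [mem_range, mem_union, mem_image]
      constructor
      · intro hi
        rcases Nat.lt_or_ge i t with h | h
        · exact Or.inl h
        · exact Or.inr ⟨i - t, by omega, by omega⟩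
      · rintro (h | ⟨x, hx, rfl⟩) <;> omega
    have hdisj : Disjoint (range t) ((range (N - t)).image (fun i => t + i)) := by
      rw [Finset.disjoint_left]
      intro i hi hi2
      rw [mem_range] at hi
      simp only [mem_image, mem_range] at hi2
      obtain ⟨x, _, rfl⟩ := hi2
      omega
    rw [h1, filter_union, card_union_of_disjoint (disjoint_filter_filter hdisj), filter_image,
      card_image_of_injective _ (fun x y hxy => by simpa using hxy)]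
    congr 2
    refine filter_congr fun i _ => ?_
    simp only [add_assoc]
  rw [hsplit]
  have hc1 : (((range t).filter
      (fun i => ∀ j, Int.fract ((b j : ℝ) ^ (s j + i) * z j) < u j)).card : ℝ) ≤ t := by
    have := card_filter_le (range t)
      (fun i => ∀ j, Int.fract ((b j : ℝ) ^ (s j + i) * z j) < u j)
    rw [card_range] at this
    exact_mod_cast this
  have hc0 : (0 : ℝ) ≤ (((range t).filter
      (fun i => ∀ j, Int.fract ((b j : ℝ) ^ (s j + i) * z j) < u j)).card : ℝ) :=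
    Nat.cast_nonneg _
  have hN : ((N : ℕ) : ℝ) = ((N - t : ℕ) : ℝ) + t := by
    push_cast [Nat.cast_sub ht]
    ring
  have ht0 : (0 : ℝ) ≤ t := Nat.cast_nonneg _
  rw [hN]
  push_cast
  rw [abs_le] at h1 ⊢
  have h2 : (t : ℝ) * P ≤ t := by nlinarith
  have h3 : 0 ≤ (t : ℝ) * P := by positivity
  constructor <;> nlinarith [h1.1, h1.2]

/-- a bad configuration with a given pattern -/
def BadP (K : Set (Fin (d + 1) → ℝ)) (σ : Fin n → Fin r) (k : Fin r → ℕ) (τ : Fin r → Bool)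
    (B : ℕ) (A κ ε : ℝ) (M : ℕ) (a : Fin (d + 1) → ℤ) : Prop :=
  (fun i => (a i : ℝ) / M) ∈ K ∧ ∃ w : Fin r → ℂ, (∀ j, cv (fun i => (a i : ℝ) / M) (w j) = 0) ∧
    (∀ j, 0 ≤ (w j).im) ∧ (∀ j, τ j = true → 0 < (w j).im) ∧
    (∀ j j', w j = w j' → k j = k j' → τ j = τ j' → j = j') ∧
    ¬ GB σ B A κ ε M (fun j => part (τ j) (w j ^ k j))

/-- the polynomials with a bad configuration in a compact set -/
theorem compact_bad (σ : Fin n → Fin r) (hn : 1 ≤ n) (B : ℕ) (A κ ε T : ℝ) (hκ : 0 < κ)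
    (hε : 0 < ε) (k : Fin r → ℕ) (τ : Fin r → Bool)
    {S : Set ((Fin (d + 1) → ℝ) × (Fin r → ℂ))} (hS : IsCompact S)
    (hS2 : ∀ v ∈ S, Conf v.1 v.2 k τ) :
    ∃ C : ℝ, 0 ≤ C ∧ ∃ M₀ : ℕ, ∀ M : ℕ, M₀ ≤ M → ∀ Ts : Finset (Fin (d + 1) → ℤ),
      (∀ a ∈ Ts, ∃ w : Fin r → ℂ, ((fun i => (a i : ℝ) / M), w) ∈ S ∧
        ¬ GB σ B A κ ε M (fun j => part (τ j) (w j ^ k j))) →
      (Ts.card : ℝ) ≤ C * ((M : ℝ) ^ (d + 1) * (log M) ^ (-T)) := by
  classical
  have hroot : ∀ v ∈ S, ∀ j, cv v.1 (v.2 j) = 0 := fun v hv => (hS2 v hv).root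
  suffices h : ∃ C : ℝ, 0 ≤ C ∧ ∃ M₀ : ℕ, ∀ M : ℕ, M₀ ≤ M → ∀ Ts : Finset (Fin (d + 1) → ℤ),
      (∀ a ∈ Ts, ∃ w : Fin r → ℂ, ((fun i => (a i : ℝ) / M), w) ∈ S ∧
        (∀ j, cv (fun i => (a i : ℝ) / M) (w j) = 0) ∧
        ¬ GB σ B A κ ε M (fun j => part (τ j) (w j ^ k j))) →
      (Ts.card : ℝ) ≤ C * ((M : ℝ) ^ (d + 1) * (log M) ^ (-T)) by
    obtain ⟨C, hC, M0, h⟩ := h
    refine ⟨C, hC, M0, fun M hM Ts hTs => h M hM Ts fun a ha => ?_⟩
    obtain ⟨w, hw, h1⟩ := hTs a ha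
    exact ⟨w, hw, fun j => hroot _ hw j, h1⟩
  refine hS.induction_on (p := fun S => ∃ C : ℝ, 0 ≤ C ∧ ∃ M₀ : ℕ, ∀ M : ℕ,
      M₀ ≤ M → ∀ Ts : Finset (Fin (d + 1) → ℤ),
      (∀ a ∈ Ts, ∃ w : Fin r → ℂ, ((fun i => (a i : ℝ) / M), w) ∈ S ∧
        (∀ j, cv (fun i => (a i : ℝ) / M) (w j) = 0) ∧
        ¬ GB σ B A κ ε M (fun j => part (τ j) (w j ^ k j))) →
      (Ts.card : ℝ) ≤ C * ((M : ℝ) ^ (d + 1) * (log M) ^ (-T))) ?_ ?_ ?_ ?_
  · refine ⟨0, le_rfl, 0, fun M _ Ts hTs => ?_⟩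
    have : Ts = ∅ := by
      rw [Finset.eq_empty_iff_forall_notMem]
      intro a ha
      obtain ⟨x, hx, -⟩ := hTs a ha
      exact hx
    rw [this]
    simp
  · rintro s t hst ⟨C, hC, M0, h⟩
    refine ⟨C, hC, M0, fun M hM Ts hTs => h M hM Ts fun a ha => ?_⟩
    obtain ⟨x, hx, h1⟩ := hTs a ha
    exact ⟨x, hst hx, h1⟩
  · rintro s t ⟨C, hC, M0, h⟩ ⟨C', hC', M0', h'⟩
    refine ⟨C + C', by positivity, max M0 M0', fun M hM Ts hTs => ?_⟩
    have hM0 : M0 ≤ M := le_of_max_le_left hM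
    have hM0' : M0' ≤ M := le_of_max_le_right hM
    set T1 := Ts.filter (fun a => ∃ w : Fin r → ℂ, ((fun i => (a i : ℝ) / M), w) ∈ s ∧
        (∀ j, cv (fun i => (a i : ℝ) / M) (w j) = 0) ∧
        ¬ GB σ B A κ ε M (fun j => part (τ j) (w j ^ k j))) with hT1
    set T2 := Ts.filter (fun a => ∃ w : Fin r → ℂ, ((fun i => (a i : ℝ) / M), w) ∈ t ∧
        (∀ j, cv (fun i => (a i : ℝ) / M) (w j) = 0) ∧
        ¬ GB σ B A κ ε M (fun j => part (τ j) (w j ^ k j))) with hT2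
    have h1 := h M hM0 T1 fun a ha => (mem_filter.1 ha).2
    have h2 := h' M hM0' T2 fun a ha => (mem_filter.1 ha).2
    have h3 : Ts ⊆ T1 ∪ T2 := by
      intro a ha
      obtain ⟨x, hx, hx2⟩ := hTs a ha
      rcases hx with hx | hx
      · exact mem_union_left _ (mem_filter.2 ⟨ha, x, hx, hx2⟩)
      · exact mem_union_right _ (mem_filter.2 ⟨ha, x, hx, hx2⟩)
    calc (Ts.card : ℝ) ≤ ((T1 ∪ T2).card : ℝ) := by exact_mod_cast card_le_card h3
      _ ≤ T1.card + T2.card := by exact_mod_cast card_union_le _ _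
      _ ≤ C * ((M : ℝ) ^ (d + 1) * (log M) ^ (-T)) +
          C' * ((M : ℝ) ^ (d + 1) * (log M) ^ (-T)) := add_le_add h1 h2
      _ = _ := by ring
  · rintro ⟨c0, z0⟩ hv
    obtain ⟨U, hU, M0, h⟩ := cell σ hn B A κ ε T hκ hε (hS2 _ hv)
    refine ⟨U, nhdsWithin_le_nhds hU, 1, zero_le_one, M0, fun M hM Ts hTs => ?_⟩
    rw [one_mul]
    exact h M hM Ts hTs

/-- one pattern -/
theorem pattern (hd : 1 ≤ d) {K : Set (Fin (d + 1) → ℝ)} (hK : IsCompact K) (hKC : K ⊆ Cu d)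
    (hKZ : ∀ c ∈ K, c ∉ Zc d) (σ : Fin n → Fin r) (hn : 1 ≤ n) (B : ℕ) (A κ ε T : ℝ)
    (hκ : 0 < κ) (hε : 0 < ε) (k : Fin r → ℕ) (hk : ∀ j, 1 ≤ k j) (τ : Fin r → Bool) :
    ∃ C : ℝ, 0 ≤ C ∧ ∃ M₀ : ℕ, ∀ M : ℕ, M₀ ≤ M → ∀ Ts : Finset (Fin (d + 1) → ℤ),
      (∀ a ∈ Ts, BadP K σ k τ B A κ ε M a) →
      (Ts.card : ℝ) ≤ C * ((M : ℝ) ^ (d + 1) * (log M) ^ (-T)) := by
  classical
  set S : Set ((Fin (d + 1) → ℝ) × (Fin r → ℂ)) := {v | v.1 ∈ K ∧ (∀ j, cv v.1 (v.2 j) = 0) ∧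
    (∀ j, 0 ≤ (v.2 j).im) ∧ (∀ j, τ j = true → dd v.1 (v.2 j) (conj (v.2 j)) = 0) ∧
    (∀ j j', j ≠ j' → k j = k j' → τ j = τ j' → dd v.1 (v.2 j) (v.2 j') = 0)} with hS
  have hlead : ∀ c ∈ K, c (Fin.last d) ≠ 0 := fun c hc h => hKZ c hc ⟨hKC hc, Or.inl h⟩
  have hsimple : ∀ c ∈ K, ∀ z : ℂ, cv c z = 0 → cd c z ≠ 0 := fun c hc z h1 h2 =>
    hKZ c hc ⟨hKC hc, Or.inr ⟨z, h1, h2⟩⟩
  -- the lower bound for the leading coefficient
  obtain ⟨η, hη0, hη⟩ : ∃ η : ℝ, 0 < η ∧ ∀ c ∈ K, η ≤ |c (Fin.last d)| := by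
    rcases K.eq_empty_or_nonempty with h | h
    · exact ⟨1, one_pos, by rw [h]; simp⟩
    · have h2 : ContinuousOn (fun c : Fin (d + 1) → ℝ => |c (Fin.last d)|) K := by fun_prop
      obtain ⟨c1, hc1, hc2⟩ := hK.exists_isMinOn h h2
      exact ⟨_, abs_pos.2 (hlead c1 hc1), fun c hc => hc2 hc⟩
  set η1 : ℝ := min η 1 with hη1
  have hη10 : 0 < η1 := lt_min hη0 one_pos
  have hcpt : IsCompact S := by
    apply Metric.isCompact_of_isClosed_isBounded
    · have e1 : IsClosed {v : (Fin (d + 1) → ℝ) × (Fin r → ℂ) | v.1 ∈ K} :=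
        hK.isClosed.preimage continuous_fst
      have e2 : IsClosed {v : (Fin (d + 1) → ℝ) × (Fin r → ℂ) | ∀ j, cv v.1 (v.2 j) = 0} := by
        simp only [Set.ofPred_forall]
        refine isClosed_iInter fun j => isClosed_eq ?_ continuous_const
        exact cv_cont.comp (by fun_prop :
          Continuous fun v : (Fin (d + 1) → ℝ) × (Fin r → ℂ) => (v.1, v.2 j))
      have e3 : IsClosed {v : (Fin (d + 1) → ℝ) × (Fin r → ℂ) | ∀ j, 0 ≤ (v.2 j).im} := by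
        simp only [Set.ofPred_forall]
        refine isClosed_iInter fun j => isClosed_le continuous_const ?_
        exact Complex.continuous_im.comp (by fun_prop)
      have e4 : IsClosed {v : (Fin (d + 1) → ℝ) × (Fin r → ℂ) | ∀ j, τ j = true →
          dd v.1 (v.2 j) (conj (v.2 j)) = 0} := by
        simp only [Set.ofPred_forall]
        refine isClosed_iInter fun j => isClosed_iInter fun _ => isClosed_eq ?_ continuous_const
        refine dd_cont.comp (continuous_fst.prodMk ((?_ : Continuous _).prodMk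
          (Complex.continuous_conj.comp ?_)))
        · fun_prop
        · fun_prop
      have e5 : IsClosed {v : (Fin (d + 1) → ℝ) × (Fin r → ℂ) | ∀ j j', j ≠ j' → k j = k j' →
          τ j = τ j' → dd v.1 (v.2 j) (v.2 j') = 0} := by
        simp only [Set.ofPred_forall]
        refine isClosed_iInter fun j => isClosed_iInter fun j' => isClosed_iInter fun _ =>
          isClosed_iInter fun _ => isClosed_iInter fun _ => isClosed_eq ?_ continuous_const
        exact dd_cont.comp (by fun_prop :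
          Continuous fun v : (Fin (d + 1) → ℝ) × (Fin r → ℂ) => (v.1, v.2 j, v.2 j'))
      exact e1.inter (e2.inter (e3.inter (e4.inter e5)))
    · refine ((Cu_bounded d).prod (Metric.isBounded_closedBall (x := (0 : Fin r → ℂ))
        (r := (d + 1) / η1))).subset ?_
      rintro ⟨c, z⟩ ⟨h1, h2, -⟩
      refine ⟨hKC h1, ?_⟩
      rw [Metric.mem_closedBall, dist_zero_right, pi_norm_le_iff_of_nonneg (by positivity)]
      intro j
      exact root_bound hd (hKC h1) hη10 (min_le_right _ _) ((min_le_left _ _).trans (hη c h1)) (h2 j)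
  have hS2 : ∀ v ∈ S, Conf v.1 v.2 k τ := by
    rintro ⟨c, z⟩ ⟨h1, h2, h3, h4, h5⟩
    refine ⟨hlead c h1, h2, fun j => hsimple c h1 _ (h2 j), h3, ?_, hk, ?_⟩
    · intro j hj
      refine lt_of_le_of_ne (h3 j) fun h6 => ?_
      have h7 := h4 j hj
      rw [Complex.conj_eq_iff_im.2 h6.symm, dd_self] at h7
      exact hsimple c h1 _ (h2 j) h7
    · intro j j' h6 h7 h8
      by_contra h9
      have h10 := h5 j j' h9 h7 h8
      simp only at h6 h10
      rw [← h6, dd_self] at h10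
      exact hsimple c h1 _ (h2 j) h10
  obtain ⟨C, hC, M0, h⟩ := compact_bad σ hn B A κ ε T hκ hε k τ hcpt hS2
  refine ⟨C, hC, M0, fun M hM Ts hTs => h M hM Ts fun a ha => ?_⟩
  obtain ⟨h1, w, h2, h3, h4, h5, h6⟩ := hTs a ha
  refine ⟨w, ⟨h1, h2, h3, fun j hj => ?_, fun j j' hjj h7 h8 => ?_⟩, h6⟩
  · refine dd_zero (h2 j) ?_ ?_
    · rw [cv_conj]
      have := h2 j
      simp only at this ⊢
      rw [this, map_zero]
    · intro h7
      have h8 := h4 j hj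
      have h9 := Complex.conj_eq_iff_im.1 h7.symm
      simp only at h9
      rw [h9] at h8
      exact lt_irrefl _ h8
  · exact dd_zero (h2 j) (h2 j') fun h9 => hjj (h5 j j' h9 h7 h8)

/-- finite unions -/
lemma union_bound {P α : Type*} [Fintype P] {X : P → ℕ → α → Prop} {F : ℕ → ℝ}
    (h : ∀ p, ∃ C : ℝ, 0 ≤ C ∧ ∃ M₀ : ℕ, ∀ M : ℕ, M₀ ≤ M → ∀ Ts : Finset α,
      (∀ a ∈ Ts, X p M a) → (Ts.card : ℝ) ≤ C * F M) :
    ∃ C : ℝ, 0 ≤ C ∧ ∃ M₀ : ℕ, ∀ M : ℕ, M₀ ≤ M → ∀ Ts : Finset α,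
      (∀ a ∈ Ts, ∃ p, X p M a) → (Ts.card : ℝ) ≤ C * F M := by
  classical
  choose C hC M0 hM0 using h
  refine ⟨∑ p, C p, sum_nonneg fun p _ => hC p, univ.sup M0, ?_⟩
  intro M hM Ts hTs
  have h1 : Ts ⊆ univ.biUnion fun p => Ts.filter (fun a => X p M a) := by
    intro a ha
    obtain ⟨p, hp⟩ := hTs a ha
    rw [mem_biUnion]
    exact ⟨p, mem_univ _, mem_filter.2 ⟨ha, hp⟩⟩
  calc (Ts.card : ℝ) ≤ ((univ.biUnion fun p => Ts.filter (fun a => X p M a)).card : ℝ) := by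
        exact_mod_cast card_le_card h1
    _ ≤ ((∑ p, (Ts.filter (fun a => X p M a)).card : ℕ) : ℝ) := by exact_mod_cast card_biUnion_le
    _ = ∑ p, ((Ts.filter (fun a => X p M a)).card : ℝ) := by push_cast; rfl
    _ ≤ ∑ p, C p * F M := sum_le_sum fun p _ =>
        hM0 p M ((Finset.le_sup (mem_univ p)).trans hM) _ fun a ha => (mem_filter.1 ha).2
    _ = (∑ p, C p) * F M := by rw [sum_mul]

end Pool.Agent.Q270.RT
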