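import Pool.Agent.Q270.SP.Piece

/-!
# Exponential sums along lines in arbitrary integer directions

`ψ v j k` is the `k`-th derivative of the `j`-th function in the direction `v`, on a cube. For every
unit vector `u` one derivative of large order of `∑ u_j ψ_j` in some direction is bounded from below.
-/

set_option autoImplicit false

namespace Pool.Agent.Q270.RT

open Finset Real Filter Topology
open Pool.Agent.H469R2.NK (e norm_e e_add)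
open Pool.Agent.Q270.SP (piece)

variable {n m : ℕ}

/-- the points of the cube -/
def InC (c0 : Fin n → ℝ) (δ : ℝ) (c : Fin n → ℝ) : Prop := ∀ i, |c i - c0 i| ≤ δ

/-- the real vector with the entries of an integer vector -/
def rv (v : Fin n → ℤ) : Fin n → ℝ := fun i => (v i : ℝ)

/-- derivatives along the lines in all integer directions -/
structure Chain (c0 : Fin n → ℝ) (δ : ℝ) (K : ℕ)
    (ψ : (Fin n → ℤ) → Fin m → ℕ → (Fin n → ℝ) → ℝ) : Prop where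
  der : ∀ v j k, ∀ c, InC c0 δ c →
    HasDerivAt (fun s : ℝ => ψ v j k (c + s • rv v)) (ψ v j (k + 1) c) 0
  zero : ∀ v j, ψ v j 0 = ψ 0 j 0
  bdd : ∀ v k, ∃ C : ℝ, ∀ j c, InC c0 δ c → |ψ v j k c| ≤ C
  big : ∃ (F : Finset ((Fin n → ℤ) × ℕ)) (η : ℝ), 0 < η ∧ (∀ i ∈ F, K ≤ i.2) ∧
    ∀ u : Fin m → ℝ, ‖u‖ = 1 → ∃ i ∈ F, ∀ c, InC c0 δ c → η ≤ |∑ j, u j * ψ i.1 j i.2 c|

/-- the sums in one direction -/
theorem line_one {c0 : Fin n → ℝ} {δ : ℝ} {v : Fin n → ℤ} {ψ : Fin m → ℕ → (Fin n → ℝ) → ℝ}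
    (hder : ∀ j k, ∀ c, InC c0 δ c →
      HasDerivAt (fun s : ℝ => ψ j k (c + s • rv v)) (ψ j (k + 1) c) 0)
    (hbdd : ∀ k, ∃ C : ℝ, ∀ j c, InC c0 δ c → |ψ j k c| ≤ C) {η : ℝ} (hη : 0 < η)
    (κ A : ℝ) (hκ : 0 < κ) (K1 : ℕ) (hK1 : 1 ≤ K1) (hKA : A + 2 ≤ ((K1 + 2 : ℕ) : ℝ)) :
    ∃ ρ : ℝ, 0 < ρ ∧ ∃ M0 : ℕ, ∀ M : ℕ, M0 ≤ M → ∀ l : Fin m → ℝ, (M : ℝ) ^ κ ≤ ‖l‖ →
      ‖l‖ ≤ (M : ℝ) ^ A → (∀ c, InC c0 δ c → η ≤ |∑ j, (l j / ‖l‖) * ψ j (K1 + 2) c|) →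
      ∀ (c : Fin n → ℝ) (ℓ : ℕ), ℓ ≤ M →
      (∀ t : ℝ, 0 ≤ t → t ≤ ℓ → InC c0 δ (c + (t / M) • rv v)) →
      ‖∑ t ∈ range ℓ, e (∑ j, l j * ψ j 0 (c + (((t : ℕ) : ℝ) / M) • rv v))‖ ≤
        (M : ℝ) ^ (1 - ρ) := by
  classical
  choose C0 hC0 using hbdd
  set μ : ℝ := min (1 / 4) (κ / 2) with hμ
  have hμ0 : 0 < μ := lt_min (by norm_num) (by positivity)
  have hμ4 : μ ≤ 1 / 4 := min_le_left _ _
  have hμκ : μ ≤ κ / 2 := min_le_right _ _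
  obtain ⟨ρ, hρ, M0, hM0⟩ := piece K1 (by omega) μ hμ0 hμ4
  set C : ℝ := max 1 (m * |C0 (K1 + 1)|) with hC
  have hC1 : 1 ≤ C := le_max_left _ _
  set ρ' : ℝ := min (ρ / 2) (μ / 8) with hρ'
  have hρ'0 : 0 < ρ' := lt_min (by positivity) (by positivity)
  have hρ'1 : ρ' ≤ ρ / 2 := min_le_left _ _
  have hρ'2 : ρ' ≤ μ / 8 := min_le_right _ _
  have hev : ∀ᶠ x : ℝ in atTop, C ≤ x ^ (1 - μ) ∧ 6 ≤ x ^ (ρ / 2) ∧
      6 * (C / η) ≤ x ^ (μ / 8) ∧ 12 ≤ x ^ (1 - ρ') ∧ 1 ≤ x := by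
    filter_upwards [(tendsto_rpow_atTop (show (0 : ℝ) < 1 - μ by linarith)).eventually_ge_atTop
      C, (tendsto_rpow_atTop (show (0 : ℝ) < ρ / 2 by positivity)).eventually_ge_atTop 6,
      (tendsto_rpow_atTop (show (0 : ℝ) < μ / 8 by positivity)).eventually_ge_atTop
        (6 * (C / η)),
      (tendsto_rpow_atTop (show (0 : ℝ) < 1 - ρ' by linarith)).eventually_ge_atTop 12,
      eventually_ge_atTop (1 : ℝ)] with x a1 a2 a3 a4 a5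
    exact ⟨a1, a2, a3, a4, a5⟩
  obtain ⟨x₁, hx₁⟩ := eventually_atTop.mp hev
  refine ⟨ρ', hρ'0, max M0 ⌈x₁⌉₊, ?_⟩
  intro M hM l hl1 hl2 hlow c ℓ hℓM hin
  obtain ⟨a1, a2, a3, a4, a5⟩ := hx₁ M (Nat.ceil_le.mp (le_of_max_le_right hM))
  have hMp : (0 : ℝ) < M := by linarith
  set T : ℝ := ‖l‖ with hT
  have hT0 : 0 < T := lt_of_lt_of_le (by positivity) hl1
  set u : Fin m → ℝ := fun j => l j / T with hu
  have hul : ∀ j, |u j| ≤ 1 := by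
    intro j
    rw [hu]
    simp only
    rw [abs_div, abs_of_pos hT0, div_le_one hT0, hT, ← Real.norm_eq_abs]
    exact norm_le_pi_norm l j
  set φ : ℕ → ℝ → ℝ := fun k t => T * ((M : ℝ)⁻¹) ^ k *
    ∑ j, u j * ψ j k (c + (t / M) • rv v) with hφ
  have hin' : ∀ t ∈ Set.Icc (0 : ℝ) (0 + ℓ),
      InC c0 δ (c + (t / M) • rv v) := by
    intro t ht
    rw [zero_add] at ht
    exact hin t ht.1 ht.2
  have hder' : ∀ k, ∀ t ∈ Set.Icc (0 : ℝ) (0 + ℓ),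
      HasDerivAt (φ k) (φ (k + 1) t) t := by
    intro k t ht
    have h1 : ∀ j, HasDerivAt (fun t : ℝ => u j * ψ j k (c + (t / M) • rv v))
        (u j * (ψ j (k + 1) (c + (t / M) • rv v) * (1 / M))) t := by
      intro j
      have h2 := hder j k (c + (t / M) • rv v) (hin' t ht)
      have h3 : HasDerivAt (fun t' : ℝ => (t' - t) / M) (1 / M) t :=
        ((hasDerivAt_id t).sub_const t).div_const _
      have h30 : (t - t) / (M : ℝ) = 0 := by rw [sub_self, zero_div]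
      rw [← h30] at h2
      have h4 := HasDerivAt.comp t h2 h3
      have h5 : ((fun s : ℝ => ψ j k (c + (t / M) • rv v + s • rv v)) ∘
          fun t' : ℝ => (t' - t) / M) = fun t' : ℝ => ψ j k (c + (t' / M) • rv v) := by
        funext s
        simp only [Function.comp]
        congr 1
        rw [add_assoc, ← add_smul]
        congr 2
        ring
      rw [h5] at h4
      exact h4.const_mul _
    have h6 := (HasDerivAt.fun_sum fun j (_ : j ∈ (univ : Finset (Fin m))) => h1 j).const_mul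
      (T * ((M : ℝ)⁻¹) ^ k)
    refine h6.congr_deriv ?_
    rw [hφ]
    simp only
    rw [pow_succ, mul_sum, mul_sum]
    refine sum_congr rfl fun j _ => ?_
    rw [one_div]
    ring
  have hMpow : ∀ k : ℕ, ((M : ℝ)⁻¹) ^ k = (M : ℝ) ^ (-(k : ℝ)) := by
    intro k
    rw [inv_pow, Real.rpow_neg hMp.le, Real.rpow_natCast]
  set s : ℝ := T * (M : ℝ) ^ (-((K1 + 2 : ℕ) : ℝ)) * η with hs
  set hi' : ℝ := T * (M : ℝ) ^ (-((K1 + 1 : ℕ) : ℝ)) * C with hhi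
  set t₀ : ℝ := hi' * (M : ℝ) ^ (-(μ / 4)) with ht₀
  have hs0 : 0 < s := by positivity
  have hhi0 : 0 < hi' := by positivity
  have ht₀0 : 0 < t₀ := by positivity
  have key := hM0 M (le_of_max_le_left hM) 0 s t₀ hi' ℓ φ hs0 ht₀0 hℓM hder' ?_ ?_ ?_ ?_ ?_
  · have h1 : ∑ t ∈ range ℓ, e (∑ j, l j * ψ j 0 (c + (((t : ℕ) : ℝ) / M) • rv v)) =
        ∑ t ∈ range ℓ, e (φ 0 ((0 : ℝ) + t)) := by
      refine sum_congr rfl fun t _ => ?_
      congr 1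
      rw [hφ]
      simp only [pow_zero, mul_one, zero_add]
      rw [mul_sum]
      refine sum_congr rfl fun j _ => ?_
      rw [hu]
      field_simp
    rw [h1]
    refine key.trans ?_
    have h2 : 2 * t₀ / s = 2 * (C / η) * (M : ℝ) ^ (1 - μ / 4) := by
      have h3 : t₀ = T * (M : ℝ) ^ (-((K1 + 2 : ℕ) : ℝ)) * C * (M : ℝ) ^ (1 - μ / 4) := by
        rw [ht₀, hhi]
        have h4 : (M : ℝ) ^ (-((K1 + 1 : ℕ) : ℝ)) * (M : ℝ) ^ (-(μ / 4)) =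
            (M : ℝ) ^ (-((K1 + 2 : ℕ) : ℝ)) * (M : ℝ) ^ (1 - μ / 4) := by
          rw [← Real.rpow_add hMp, ← Real.rpow_add hMp]
          congr 1
          push_cast
          ring
        calc T * (M : ℝ) ^ (-((K1 + 1 : ℕ) : ℝ)) * C * (M : ℝ) ^ (-(μ / 4)) =
              T * C * ((M : ℝ) ^ (-((K1 + 1 : ℕ) : ℝ)) * (M : ℝ) ^ (-(μ / 4))) := by ring
          _ = _ := by rw [h4]; ring
      rw [h3, hs]
      field_simp
    rw [h2]
    have h3 : 2 * (M : ℝ) ^ (1 - ρ) ≤ (M : ℝ) ^ (1 - ρ') / 3 := by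
      have h4 : 6 * (M : ℝ) ^ (1 - ρ) ≤ (M : ℝ) ^ (1 - ρ') := by
        calc 6 * (M : ℝ) ^ (1 - ρ) ≤ (M : ℝ) ^ (ρ / 2) * (M : ℝ) ^ (1 - ρ) := by gcongr
          _ = (M : ℝ) ^ (1 - ρ / 2) := by
              rw [← Real.rpow_add hMp]
              congr 1
              ring
          _ ≤ _ := Real.rpow_le_rpow_of_exponent_le a5 (by linarith)
      linarith
    have h5 : 2 * (C / η) * (M : ℝ) ^ (1 - μ / 4) ≤ (M : ℝ) ^ (1 - ρ') / 3 := by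
      have h4 : 6 * (C / η) * (M : ℝ) ^ (1 - μ / 4) ≤ (M : ℝ) ^ (1 - ρ') := by
        calc 6 * (C / η) * (M : ℝ) ^ (1 - μ / 4) ≤
              (M : ℝ) ^ (μ / 8) * (M : ℝ) ^ (1 - μ / 4) := by gcongr
          _ = (M : ℝ) ^ (1 - μ / 8) := by
              rw [← Real.rpow_add hMp]
              congr 1
              ring
          _ ≤ _ := Real.rpow_le_rpow_of_exponent_le a5 (by linarith)
      linarith
    linarith
  · intro t ht
    have h1 := hlow (c + (t / M) • rv v) (hin' t ht)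
    have h2 : |φ (K1 + 2) t| = T * (M : ℝ) ^ (-((K1 + 2 : ℕ) : ℝ)) *
        |∑ j, u j * ψ j (K1 + 2) (c + (t / M) • rv v)| := by
      rw [hφ]
      simp only
      rw [abs_mul, hMpow, abs_of_pos (by positivity)]
    rw [h2, hs]
    gcongr
  · intro t ht
    have h2 : |φ (K1 + 1) t| = T * (M : ℝ) ^ (-((K1 + 1 : ℕ) : ℝ)) *
        |∑ j, u j * ψ j (K1 + 1) (c + (t / M) • rv v)| := by
      rw [hφ]
      simp only
      rw [abs_mul, hMpow, abs_of_pos (by positivity)]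
    rw [h2, hhi]
    gcongr
    calc |∑ j, u j * ψ j (K1 + 1) (c + (t / M) • rv v)| ≤
          ∑ j, |u j * ψ j (K1 + 1) (c + (t / M) • rv v)| := abs_sum_le_sum_abs _ _
      _ ≤ ∑ _j : Fin m, |C0 (K1 + 1)| := by
          refine sum_le_sum fun j _ => ?_
          rw [abs_mul]
          have h3 := hC0 (K1 + 1) j (c + (t / M) • rv v) (hin' t ht)
          calc |u j| * |ψ j (K1 + 1) (c + (t / M) • rv v)| ≤ 1 * |C0 (K1 + 1)| :=
                mul_le_mul (hul j) (h3.trans (le_abs_self _)) (abs_nonneg _) zero_le_one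
            _ = _ := one_mul _
      _ = m * |C0 (K1 + 1)| := by
          rw [sum_const, card_univ, Fintype.card_fin, nsmul_eq_mul]
      _ ≤ C := le_max_right _ _
  · rw [ht₀, mul_assoc, ← Real.rpow_add hMp]
    rw [show -(μ / 4) + μ / 4 = 0 by ring, Real.rpow_zero, mul_one]
  · rw [ht₀, hhi]
    have hK2 : A + 1 ≤ ((K1 + 1 : ℕ) : ℝ) := by
      push_cast at hKA ⊢
      linarith
    calc T * (M : ℝ) ^ (-((K1 + 1 : ℕ) : ℝ)) * C * (M : ℝ) ^ (-(μ / 4)) ≤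
          (M : ℝ) ^ A * (M : ℝ) ^ (-((K1 + 1 : ℕ) : ℝ)) * (M : ℝ) ^ (1 - μ) * 1 := by
          gcongr
          exact Real.rpow_le_one_of_one_le_of_nonpos a5 (by linarith)
      _ = (M : ℝ) ^ (A - ((K1 + 1 : ℕ) : ℝ) + 1 - μ) := by
          rw [mul_one, ← Real.rpow_add hMp, ← Real.rpow_add hMp]
          congr 1
          ring
      _ ≤ (M : ℝ) ^ (-μ) := Real.rpow_le_rpow_of_exponent_le a5 (by linarith)
  · rw [ht₀, hhi]
    calc (M : ℝ) ^ (-((K1 : ℝ) + 1) + μ) ≤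
          (M : ℝ) ^ (κ + -((K1 + 1 : ℕ) : ℝ) + -(μ / 4)) := by
          apply Real.rpow_le_rpow_of_exponent_le a5
          push_cast
          linarith
      _ = (M : ℝ) ^ κ * (M : ℝ) ^ (-((K1 + 1 : ℕ) : ℝ)) * 1 * (M : ℝ) ^ (-(μ / 4)) := by
          rw [Real.rpow_add hMp, Real.rpow_add hMp, mul_one]
      _ ≤ T * (M : ℝ) ^ (-((K1 + 1 : ℕ) : ℝ)) * C * (M : ℝ) ^ (-(μ / 4)) := by gcongr

/-- for every frequency there is a good direction -/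
theorem line_sum {c0 : Fin n → ℝ} {δ : ℝ} {K : ℕ}
    {ψ : (Fin n → ℤ) → Fin m → ℕ → (Fin n → ℝ) → ℝ} (H : Chain c0 δ K ψ) (κ A : ℝ) (hκ : 0 < κ)
    (hK3 : 3 ≤ K) (hKA : A + 2 ≤ K) :
    ∃ (F : Finset (Fin n → ℤ)) (ρ : ℝ), 0 < ρ ∧ ∃ M0 : ℕ, ∀ M : ℕ, M0 ≤ M → ∀ l : Fin m → ℝ,
      (M : ℝ) ^ κ ≤ ‖l‖ → ‖l‖ ≤ (M : ℝ) ^ A → ∃ v ∈ F, ∀ (c : Fin n → ℝ) (ℓ : ℕ), ℓ ≤ M →
      (∀ t : ℝ, 0 ≤ t → t ≤ ℓ → InC c0 δ (c + (t / M) • rv v)) →
      ‖∑ t ∈ range ℓ, e (∑ j, l j * ψ 0 j 0 (c + (((t : ℕ) : ℝ) / M) • rv v))‖ ≤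
        (M : ℝ) ^ (1 - ρ) := by
  classical
  obtain ⟨F, η, hη, hFK, hbig⟩ := H.big
  have hone : ∀ i : (Fin n → ℤ) × ℕ, ∃ ρ : ℝ, 0 < ρ ∧ ∃ M0 : ℕ, i ∈ F → ∀ M : ℕ, M0 ≤ M →
      ∀ l : Fin m → ℝ, (M : ℝ) ^ κ ≤ ‖l‖ → ‖l‖ ≤ (M : ℝ) ^ A →
      (∀ c, InC c0 δ c → η ≤ |∑ j, (l j / ‖l‖) * ψ i.1 j i.2 c|) →
      ∀ (c : Fin n → ℝ) (ℓ : ℕ), ℓ ≤ M →
      (∀ t : ℝ, 0 ≤ t → t ≤ ℓ → InC c0 δ (c + (t / M) • rv i.1)) →
      ‖∑ t ∈ range ℓ, e (∑ j, l j * ψ i.1 j 0 (c + (((t : ℕ) : ℝ) / M) • rv i.1))‖ ≤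
        (M : ℝ) ^ (1 - ρ) := by
    rintro ⟨v, i⟩
    by_cases hiF : (v, i) ∈ F
    swap
    · exact ⟨1, one_pos, 0, fun h => absurd h hiF⟩
    have hi := hFK _ hiF
    simp only at hi
    obtain ⟨K1, hK1⟩ : ∃ K1 : ℕ, i = K1 + 2 := ⟨i - 2, by omega⟩
    subst hK1
    obtain ⟨ρ, hρ, M0, hM0⟩ := line_one (ψ := ψ v) (H.der v) (H.bdd v) hη κ A hκ K1 (by omega)
      (hKA.trans (by exact_mod_cast hi))
    exact ⟨ρ, hρ, M0, fun _ => hM0⟩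
  choose ρ hρ M0 hM0 using hone
  have hFne : (insert (0, 0) F).Nonempty := Finset.insert_nonempty _ _
  refine ⟨F.image Prod.fst, (insert (0, 0) F).inf' hFne ρ,
    (Finset.lt_inf'_iff _).2 fun i _ => hρ i, max 1 ((insert (0, 0) F).sup M0), ?_⟩
  intro M hM l hl1 hl2
  have hM1 : (1 : ℝ) ≤ M := by exact_mod_cast le_of_max_le_left hM
  have hMp : (0 : ℝ) < M := by linarith
  have hT0 : 0 < ‖l‖ := lt_of_lt_of_le (by positivity) hl1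
  obtain ⟨i, hiF, hi⟩ := hbig (fun j => l j / ‖l‖) (by
    have h1 : (fun j => l j / ‖l‖) = ‖l‖⁻¹ • l := by
      funext j
      rw [Pi.smul_apply, smul_eq_mul, div_eq_inv_mul]
    rw [h1, norm_smul, norm_inv, norm_norm, inv_mul_cancel₀ hT0.ne'])
  refine ⟨i.1, Finset.mem_image_of_mem _ hiF, ?_⟩
  intro c ℓ hℓM hin
  have him : i ∈ insert (0, 0) F := Finset.mem_insert_of_mem hiF
  have h1 := hM0 i hiF M ((Finset.le_sup him).trans (le_of_max_le_right hM)) l hl1 hl2 hi c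
    ℓ hℓM hin
  simp only [H.zero i.1] at h1
  refine h1.trans ?_
  apply Real.rpow_le_rpow_of_exponent_le hM1
  have := Finset.inf'_le ρ him
  linarith

end Pool.Agent.Q270.RT
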