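import Pool.Agent.Q270.RT.Root

/-!
# The coordinates of the powers of the roots are independent
-/

set_option autoImplicit false

namespace Pool.Agent.Q270.RT

open Finset Real Filter Topology Polynomial
open scoped ContDiff ComplexConjugate

variable {d r : ℕ}

/-- the real part (`false`) or the imaginary part (`true`) -/
def part (τ : Bool) (z : ℂ) : ℝ := if τ then z.im else z.re

lemma part_true (z : ℂ) : part true z = z.im := rfl

lemma part_false (z : ℂ) : part false z = z.re := rfl

/-- the multiplier which moves the part to the real part -/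
noncomputable def eps (τ : Bool) : ℂ := if τ then -Complex.I else 1

lemma part_eq (τ : Bool) (z : ℂ) : part τ z = (eps τ * z).re := by
  cases τ
  · simp [part, eps]
  · simp [part, eps]

lemma part_ana (τ : Bool) {E : Type*} [NormedAddCommGroup E] [NormedSpace ℝ E] {f : E → ℂ}
    {c : E} (hf : AnalyticAt ℝ f c) : AnalyticAt ℝ (fun x => part τ (f x)) c := by
  cases τ
  · exact (Complex.reCLM.analyticAt _).comp hf
  · exact (Complex.imCLM.analyticAt _).comp hf

/-- a complex polynomial whose real part is constant near a point -/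
lemma const_of_re {H : ℂ[X]} {z0 : ℂ} {C0 : ℝ} (h : ∀ᶠ w in 𝓝 z0, (H.eval w).re = C0) :
    H = C (H.coeff 0) := by
  obtain ⟨ε, hε, hball⟩ := Metric.eventually_nhds_iff_ball.1 h
  have hder : ∀ w ∈ Metric.ball z0 ε, H.derivative.eval w = 0 := by
    intro w hw
    have hv : ∀ v : ℂ, (H.derivative.eval w * v).re = 0 := by
      intro v
      have h1 : HasDerivAt (fun t : ℝ => w + (t : ℂ) * v) v 0 := by
        have h3 : HasDerivAt (fun t : ℝ => (t : ℂ) * v) (1 * v) 0 :=
          (Complex.ofRealCLM.hasDerivAt (x := (0 : ℝ))).mul_const v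
        rw [one_mul] at h3
        exact h3.const_add w
      have h2 : HasDerivAt (fun z => H.eval z) (H.derivative.eval w) (w + ((0 : ℝ) : ℂ) * v) := by
        rw [Complex.ofReal_zero, zero_mul, add_zero]
        exact H.hasDerivAt w
      have h3 : HasDerivAt ((fun z => H.eval z) ∘ fun t : ℝ => w + (t : ℂ) * v)
          (H.derivative.eval w * v) 0 := HasDerivAt.comp (0 : ℝ) h2 h1
      have h4 : HasDerivAt (fun t : ℝ => (H.eval (w + (t : ℂ) * v)).re)
          (H.derivative.eval w * v).re 0 :=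
        (Complex.reCLM.hasFDerivAt).comp_hasDerivAt (0 : ℝ) h3
      have h5 : (fun t : ℝ => (H.eval (w + (t : ℂ) * v)).re) =ᶠ[𝓝 0] fun _ => C0 := by
        have h6 : Tendsto (fun t : ℝ => w + (t : ℂ) * v) (𝓝 0) (𝓝 w) := by
          have := h1.continuousAt.tendsto
          rwa [Complex.ofReal_zero, zero_mul, add_zero] at this
        filter_upwards [h6.eventually (Metric.isOpen_ball.mem_nhds hw)] with t ht
        exact hball _ ht
      exact (h4.congr_of_eventuallyEq h5.symm).unique (hasDerivAt_const _ _)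
    apply Complex.ext
    · have := hv 1
      rwa [mul_one] at this
    · have := hv (-Complex.I)
      simpa using this
  have h0 : H.derivative = 0 := by
    apply Polynomial.eq_zero_of_infinite_isRoot
    refine (infinite_of_mem_nhds z0 (Metric.ball_mem_nhds z0 hε)).mono ?_
    exact fun w hw => hder w hw
  exact Polynomial.eq_C_of_derivative_eq_zero h0

/-- a complex polynomial whose values at the real points near a point are constant -/
lemma const_of_real {H : ℂ[X]} {x0 : ℝ} {C0 : ℂ} (h : ∀ᶠ x : ℝ in 𝓝 x0, H.eval (x : ℂ) = C0) :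
    H = C (H.coeff 0) := by
  have h1 : H - C C0 = 0 := by
    apply Polynomial.eq_zero_of_infinite_isRoot
    obtain ⟨ε, hε, hball⟩ := Metric.eventually_nhds_iff_ball.1 h
    have h2 : ((fun x : ℝ => (x : ℂ)) '' Metric.ball x0 ε).Infinite := by
      rw [Set.infinite_image_iff Complex.ofReal_injective.injOn]
      exact infinite_of_mem_nhds x0 (Metric.ball_mem_nhds x0 hε)
    refine h2.mono ?_
    rintro _ ⟨x, hx, rfl⟩
    show (H - C C0).eval (x : ℂ) = 0
    rw [Polynomial.eval_sub, Polynomial.eval_C, hball x hx, sub_self]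
  have h2 : H = C C0 := sub_eq_zero.1 h1
  rw [h2, Polynomial.coeff_C_zero]

/-- systems of distinct coordinates of the powers of simple roots -/
structure Conf (c0 : Fin (d + 1) → ℝ) (z : Fin r → ℂ) (k : Fin r → ℕ) (τ : Fin r → Bool) :
    Prop where
  lead : c0 (Fin.last d) ≠ 0
  root : ∀ j, cv c0 (z j) = 0
  simple : ∀ j, cd c0 (z j) ≠ 0
  upper : ∀ j, 0 ≤ (z j).im
  im : ∀ j, τ j = true → 0 < (z j).im
  pos : ∀ j, 1 ≤ k j
  inj : ∀ j j', z j = z j' → k j = k j' → τ j = τ j' → j = j'

/-- the coefficients of the combination vanish -/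
lemma coeff_zero_of {u : Fin r → ℝ} {z : Fin r → ℂ} {k : Fin r → ℕ} {τ : Fin r → Bool} {z0 : ℂ}
    (hpos : ∀ j, 1 ≤ k j) (hinj : ∀ j j', z j = z j' → k j = k j' → τ j = τ j' → j = j')
    (hH : (∑ j with z j = z0, C ((u j : ℂ) * eps (τ j)) * X ^ k j : ℂ[X]) =
      C ((∑ j with z j = z0, C ((u j : ℂ) * eps (τ j)) * X ^ k j : ℂ[X]).coeff 0))
    (j0 : Fin r) (hj0 : z j0 = z0) : u j0 = 0 := by
  have h1 := congrArg (fun p => Polynomial.coeff p (k j0)) hH
  rw [Polynomial.coeff_C, if_neg (by have := hpos j0; omega), Polynomial.finsetSum_coeff] at h1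
  simp only [Polynomial.coeff_C_mul_X_pow] at h1
  -- the terms with the exponent `k j0`
  have h2 : ∑ j with z j = z0, (if k j0 = k j then (u j : ℂ) * eps (τ j) else 0) =
      ∑ j with (z j = z0 ∧ k j0 = k j), (u j : ℂ) * eps (τ j) := by
    rw [← Finset.sum_filter, Finset.filter_filter]
  rw [h2] at h1
  set S : Finset (Fin r) := univ.filter (fun j => z j = z0 ∧ k j0 = k j) with hS
  have h3 : (∑ j ∈ S, (u j : ℂ) * eps (τ j)).re = ∑ j ∈ S.filter (fun j => τ j = false), u j := by
    rw [Complex.re_sum, Finset.sum_filter (s := S)]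
    refine sum_congr rfl fun j _ => ?_
    rcases h : τ j with _ | _
    · simp [eps]
    · simp [eps]
  have h4 : (∑ j ∈ S, (u j : ℂ) * eps (τ j)).im = ∑ j ∈ S.filter (fun j => τ j = true), -u j := by
    rw [Complex.im_sum, Finset.sum_filter (s := S)]
    refine sum_congr rfl fun j _ => ?_
    rcases h : τ j with _ | _
    · simp [eps]
    · simp [eps]
  rw [h1] at h3 h4
  have h5 : S.filter (fun j => τ j = τ j0) = {j0} := by
    ext j
    rw [Finset.mem_filter, hS, Finset.mem_filter, Finset.mem_singleton]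
    constructor
    · rintro ⟨⟨_, g1, g2⟩, g3⟩
      exact hinj _ _ (g1.trans hj0.symm) g2.symm g3
    · rintro rfl
      exact ⟨⟨mem_univ _, hj0, rfl⟩, rfl⟩
  rcases h : τ j0 with _ | _
  · rw [h] at h5
    rw [h5, sum_singleton] at h3
    simpa using h3.symm
  · rw [h] at h5
    rw [h5, sum_singleton] at h4
    simpa using h4.symm

/-- no combination of the coordinates is constant -/
theorem nondeg {c0 : Fin (d + 1) → ℝ} {z : Fin r → ℂ} {k : Fin r → ℕ} {τ : Fin r → Bool}
    (hc : Conf c0 z k τ) {Φ : Fin r → (Fin (d + 1) → ℝ) → ℂ}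
    (hu : ∀ j, ∀ᶠ v in 𝓝 (c0, z j), cv v.1 v.2 = 0 → v.2 = Φ j v.1) (u : Fin r → ℝ)
    (hu0 : u ≠ 0) : ¬ ∃ C : ℝ, ∀ᶠ c in 𝓝 c0, ∑ j, u j * part (τ j) (Φ j c ^ k j) = C := by
  rintro ⟨C0, hC0⟩
  apply hu0
  funext j0
  rw [Pi.zero_apply]
  set z0 := z j0 with hz0
  obtain ⟨D, γ, hγ, hγ0, hγ1, hγ2, hD⟩ := exists_path hc.lead (hc.root j0)
  -- the values on the path
  have hval : ∀ᶠ w in 𝓝 z0, w ∈ D → ∀ j, Φ j (γ w) = if z j = z0 then w else z j := by
    have h1 : ∀ j, ∀ᶠ w in 𝓝 z0, w ∈ D → Φ j (γ w) = if z j = z0 then w else z j := by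
      intro j
      by_cases hj : z j = z0
      · have h2 : Tendsto (fun w => (γ w, w)) (𝓝 z0) (𝓝 (c0, z j)) := by
          rw [hj, ← hγ0]
          exact (hγ.prodMk continuousAt_id).tendsto
        filter_upwards [h2.eventually (hu j)] with w hw hwD
        rw [if_pos hj]
        exact (hw (hγ1 w hwD)).symm
      · have h2 : Tendsto (fun w => (γ w, z j)) (𝓝 z0) (𝓝 (c0, z j)) := by
          rw [← hγ0]
          exact (hγ.prodMk continuousAt_const).tendsto
        filter_upwards [h2.eventually (hu j)] with w hw hwD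
        rw [if_neg hj]
        refine (hw (hγ2 w hwD (z j) (hc.root j) hj ?_)).symm
        intro h3
        apply hj
        have h4 := hc.upper j
        have h5 := hc.upper j0
        rw [h3, Complex.conj_im] at h4
        have h6 : (z0).im = 0 := by
          rw [← hz0] at h5
          linarith
        rw [h3]
        exact Complex.conj_eq_iff_im.2 h6
    have h2 : ∀ᶠ w in 𝓝 z0, ∀ j, w ∈ D → Φ j (γ w) = if z j = z0 then w else z j :=
      Filter.eventually_all.2 h1
    filter_upwards [h2] with w hw hwD j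
    exact hw j hwD
  set H : ℂ[X] := ∑ j with z j = z0, C ((u j : ℂ) * eps (τ j)) * X ^ k j with hH
  have hHe : ∀ w : ℂ, H.eval w = ∑ j with z j = z0, (u j : ℂ) * eps (τ j) * w ^ k j := by
    intro w
    rw [hH, Polynomial.eval_finsetSum]
    refine sum_congr rfl fun j _ => ?_
    rw [Polynomial.eval_mul, Polynomial.eval_C, Polynomial.eval_pow, Polynomial.eval_X]
  have hHre : ∀ w : ℂ, (H.eval w).re = ∑ j with z j = z0, u j * part (τ j) (w ^ k j) := by
    intro w
    rw [hHe, Complex.re_sum]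
    refine sum_congr rfl fun j _ => ?_
    rw [part_eq, mul_assoc, Complex.re_ofReal_mul]
  set C1 : ℝ := C0 - ∑ j with z j ≠ z0, u j * part (τ j) (z j ^ k j) with hC1
  have hconst : ∀ᶠ w in 𝓝 z0, w ∈ D → (H.eval w).re = C1 := by
    have h1 : ∀ᶠ w in 𝓝 z0, ∑ j, u j * part (τ j) (Φ j (γ w) ^ k j) = C0 := by
      have h2 : Tendsto γ (𝓝 z0) (𝓝 c0) := by
        rw [← hγ0]
        exact hγ.tendsto
      exact h2.eventually hC0
    filter_upwards [h1, hval] with w hw1 hw2 hwD
    rw [hHre, hC1, ← hw1, ← Finset.sum_filter_add_sum_filter_not univ (fun j => z j = z0)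
      (fun j => u j * part (τ j) (Φ j (γ w) ^ k j))]
    have h3 : ∑ j with z j = z0, u j * part (τ j) (Φ j (γ w) ^ k j) =
        ∑ j with z j = z0, u j * part (τ j) (w ^ k j) := by
      refine sum_congr rfl fun j hj => ?_
      rw [hw2 hwD j, if_pos (mem_filter.1 hj).2]
    have h4 : ∑ j with ¬ z j = z0, u j * part (τ j) (Φ j (γ w) ^ k j) =
        ∑ j with z j ≠ z0, u j * part (τ j) (z j ^ k j) := by
      refine sum_congr rfl fun j hj => ?_
      rw [hw2 hwD j, if_neg (mem_filter.1 hj).2]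
    rw [h3, h4]
    ring
  have hHC : H = C (H.coeff 0) := by
    rcases hD with hD | ⟨him, hD⟩
    · apply const_of_re (z0 := z0) (C0 := C1)
      filter_upwards [hconst] with w hw
      exact hw (by rw [hD]; exact Set.mem_univ _)
    · apply const_of_real (x0 := z0.re) (C0 := (C1 : ℂ))
      have h1 : Tendsto (fun x : ℝ => (x : ℂ)) (𝓝 z0.re) (𝓝 z0) := by
        have h2 : ((z0.re : ℝ) : ℂ) = z0 := by
          apply Complex.ext
          · simp
          · rw [Complex.ofReal_im]
            exact him.symm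
        have h3 := (Complex.continuous_ofReal.tendsto z0.re)
        rwa [h2] at h3
      filter_upwards [h1.eventually hconst] with x hx
      have h2 := hx (by rw [hD]; simp)
      apply Complex.ext
      · rw [h2, Complex.ofReal_re]
      · rw [Complex.ofReal_im, hHe, Complex.im_sum]
        refine Finset.sum_eq_zero fun j hj => ?_
        have h3 : τ j = false := by
          by_contra h4
          have h5 : τ j = true := by simpa using h4
          have h6 := hc.im j h5
          rw [(mem_filter.1 hj).2, him] at h6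
          exact lt_irrefl _ h6
        rw [h3]
        simp only [eps, Bool.false_eq_true, if_false, mul_one]
        rw [← Complex.ofReal_pow, ← Complex.ofReal_mul, Complex.ofReal_im]
  exact coeff_zero_of (z0 := z0) hc.pos hc.inj hHC j0 hz0.symm

/-- the functions near a configuration -/
theorem conf_chain {c0 : Fin (d + 1) → ℝ} {z : Fin r → ℂ} {k : Fin r → ℕ} {τ : Fin r → Bool}
    (hc : Conf c0 z k τ) (K : ℕ) (δ1 : ℝ) (hδ1 : 0 < δ1) :
    ∃ Φ : Fin r → (Fin (d + 1) → ℝ) → ℂ,
      (∀ᶠ v : (Fin (d + 1) → ℝ) × (Fin r → ℂ) in 𝓝 (c0, z), ∀ j, cv v.1 (v.2 j) = 0 →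
        v.2 j = Φ j v.1) ∧
      ∃ δ : ℝ, 0 < δ ∧ δ ≤ δ1 ∧ Chain c0 δ K (Psi fun j c => part (τ j) (Φ j c ^ k j)) := by
  have hloc := fun j => local_root (hc.root j) (hc.simple j)
  choose Φ h1 h2 h3 h4 using hloc
  refine ⟨Φ, ?_, ?_⟩
  · rw [Filter.eventually_all]
    intro j
    have h5 : Tendsto (fun v : (Fin (d + 1) → ℝ) × (Fin r → ℂ) => (v.1, v.2 j)) (𝓝 (c0, z))
        (𝓝 (c0, z j)) := by
      have : Continuous fun v : (Fin (d + 1) → ℝ) × (Fin r → ℂ) => (v.1, v.2 j) := by fun_prop
      exact this.tendsto _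
    exact h5.eventually (h4 j)
  · refine exists_chain (Φ := fun j c => part (τ j) (Φ j c ^ k j)) (fun j => part_ana _
      (show AnalyticAt ℝ (fun c => Φ j c ^ k j) c0 from (h1 j).pow _)) ?_ (nondeg hc h4) K δ1 hδ1
    have h5 : ∀ j, ∀ᶠ x : (Fin (d + 1) → ℝ) × ℝ in 𝓝 (c0, 1), Φ j (x.2 • x.1) = Φ j x.1 := by
      intro j
      have h6 : Tendsto (fun x : (Fin (d + 1) → ℝ) × ℝ => (x.2 • x.1, Φ j x.1)) (𝓝 (c0, 1))
          (𝓝 (c0, z j)) := by
        have h7 : ContinuousAt (fun x : (Fin (d + 1) → ℝ) × ℝ => x.2 • x.1) (c0, 1) := by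
          fun_prop
        have h8 : ContinuousAt (fun x : (Fin (d + 1) → ℝ) × ℝ => Φ j x.1) (c0, 1) :=
          ContinuousAt.comp (f := Prod.fst) (h1 j).continuousAt continuousAt_fst
        have h9 : Tendsto (fun x : (Fin (d + 1) → ℝ) × ℝ => (x.2 • x.1, Φ j x.1)) (𝓝 (c0, 1))
            (𝓝 ((1 : ℝ) • c0, Φ j c0)) := (h7.prodMk h8).tendsto
        rwa [one_smul, h2 j] at h9
      have h7 : ∀ᶠ x : (Fin (d + 1) → ℝ) × ℝ in 𝓝 (c0, 1), cv x.1 (Φ j x.1) = 0 := by
        have h8 : Tendsto (Prod.fst : (Fin (d + 1) → ℝ) × ℝ → _) (𝓝 (c0, 1)) (𝓝 c0) :=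
          continuous_fst.tendsto _
        exact h8.eventually (h3 j)
      filter_upwards [h6.eventually (h4 j), h7] with x hx1 hx2
      refine (hx1 ?_).symm
      rw [cv_smul, hx2, mul_zero]
    filter_upwards [Filter.eventually_all.2 h5] with x hx j
    rw [hx j]

end Pool.Agent.Q270.RT
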