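import Pool.Agent.Q270.RT.Ana

/-!
# The complex roots of a real polynomial as analytic functions of the coefficients
-/

set_option autoImplicit false

namespace Pool.Agent.Q270.RT

open Finset Real Filter Topology Polynomial
open scoped ContDiff ComplexConjugate

variable {d : ℕ}

/-- the value at `z` of the polynomial with the real coefficients `c` -/
noncomputable def cv (c : Fin (d + 1) → ℝ) (z : ℂ) : ℂ := ∑ i, (c i : ℂ) * z ^ (i : ℕ)

/-- the derivative -/
noncomputable def cd (c : Fin (d + 1) → ℝ) (z : ℂ) : ℂ :=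
  ∑ i, (c i : ℂ) * ((i : ℕ) * z ^ ((i : ℕ) - 1))

lemma cv_deriv (c : Fin (d + 1) → ℝ) (z : ℂ) : HasDerivAt (cv c) (cd c z) z := by
  unfold cv cd
  refine HasDerivAt.fun_sum fun i _ => ?_
  exact (hasDerivAt_pow _ z).const_mul _

lemma cv_contDiff : ContDiff ℝ ω (fun v : (Fin (d + 1) → ℝ) × ℂ => cv v.1 v.2) := by
  unfold cv
  refine ContDiff.sum fun i _ => ?_
  have h1 : ContDiff ℝ ω (fun v : (Fin (d + 1) → ℝ) × ℂ => ((v.1 i : ℝ) : ℂ)) := by
    have h2 : ContDiff ℝ ω (fun c : Fin (d + 1) → ℝ => c i) := contDiff_apply ℝ ℝ i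
    exact Complex.ofRealCLM.contDiff.comp (h2.comp contDiff_fst)
  exact h1.mul (contDiff_snd.pow _)

lemma cv_cont : Continuous (fun v : (Fin (d + 1) → ℝ) × ℂ => cv v.1 v.2) := cv_contDiff.continuous

lemma cd_cont : Continuous (fun v : (Fin (d + 1) → ℝ) × ℂ => cd v.1 v.2) := by
  unfold cd
  fun_prop

lemma cv_smul (t : ℝ) (c : Fin (d + 1) → ℝ) (z : ℂ) : cv (t • c) z = t * cv c z := by
  unfold cv
  rw [mul_sum]
  refine sum_congr rfl fun i _ => ?_
  rw [Pi.smul_apply, smul_eq_mul]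
  push_cast
  ring

lemma cv_conj (c : Fin (d + 1) → ℝ) (z : ℂ) : cv c (conj z) = conj (cv c z) := by
  unfold cv
  rw [map_sum]
  refine sum_congr rfl fun i _ => ?_
  rw [map_mul, map_pow, Complex.conj_ofReal]

/-- the local root -/
theorem local_root {c0 : Fin (d + 1) → ℝ} {z0 : ℂ} (h0 : cv c0 z0 = 0) (h1 : cd c0 z0 ≠ 0) :
    ∃ Φ : (Fin (d + 1) → ℝ) → ℂ, AnalyticAt ℝ Φ c0 ∧ Φ c0 = z0 ∧
      (∀ᶠ c in 𝓝 c0, cv c (Φ c) = 0) ∧
      ∀ᶠ v in 𝓝 (c0, z0), cv v.1 v.2 = 0 → v.2 = Φ v.1 := by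
  set f : (Fin (d + 1) → ℝ) × ℂ → ℂ := fun v => cv v.1 v.2 with hf
  have hcd : ContDiffAt ℝ ω f (c0, z0) := cv_contDiff.contDiffAt
  have hω : (ω : WithTop ℕ∞) ≠ 0 := by decide
  have hfd : HasFDerivAt f (fderiv ℝ f (c0, z0)) (c0, z0) :=
    (hcd.differentiableAt hω).hasFDerivAt
  have hval : ∀ w : ℂ, (fderiv ℝ f (c0, z0)) (0, w) = w * cd c0 z0 := by
    intro w
    have h2 : HasDerivAt (fun t : ℝ => (c0, z0 + (t : ℂ) * w)) ((0 : Fin (d + 1) → ℝ), w) 0 := by
      refine (hasDerivAt_const (0 : ℝ) c0).prodMk ?_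
      have h3 : HasDerivAt (fun t : ℝ => (t : ℂ) * w) (1 * w) 0 :=
        (Complex.ofRealCLM.hasDerivAt (x := (0 : ℝ))).mul_const w
      rw [one_mul] at h3
      exact h3.const_add z0
    have hfd' : HasFDerivAt f (fderiv ℝ f (c0, z0)) (c0, z0 + ((0 : ℝ) : ℂ) * w) := by
      rw [Complex.ofReal_zero, zero_mul, add_zero]
      exact hfd
    have h3 := hfd'.comp_hasDerivAt (0 : ℝ) h2
    have h4 : HasDerivAt (fun t : ℝ => cv c0 (z0 + (t : ℂ) * w)) (cd c0 z0 * w) 0 := by
      have h5 : HasDerivAt (cv c0) (cd c0 z0) (z0 + ((0 : ℝ) : ℂ) * w) := by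
        rw [Complex.ofReal_zero, zero_mul, add_zero]
        exact cv_deriv c0 z0
      have h6 : HasDerivAt (fun t : ℝ => z0 + (t : ℂ) * w) w 0 := by
        have h3 : HasDerivAt (fun t : ℝ => (t : ℂ) * w) (1 * w) 0 :=
          (Complex.ofRealCLM.hasDerivAt (x := (0 : ℝ))).mul_const w
        rw [one_mul] at h3
        exact h3.const_add z0
      exact HasDerivAt.comp (0 : ℝ) h5 h6
    rw [mul_comm]
    exact h3.unique h4
  have hinv : (fderiv ℝ f (c0, z0) ∘L .inr ℝ (Fin (d + 1) → ℝ) ℂ).IsInvertible := by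
    refine ⟨(ContinuousLinearEquiv.unitsEquivAut ℂ (Units.mk0 (cd c0 z0) h1)).restrictScalars ℝ, ?_⟩
    ext w
    simp [hval]
  refine ⟨hcd.implicitFunction hω hinv, ?_, ?_, ?_, ?_⟩
  · have h2 := hcd.contDiffAt_implicitFunction hω hinv
    exact h2.analyticAt
  · exact hcd.implicitFunction_apply_self hω hinv
  · filter_upwards [hcd.eventually_apply_implicitFunction hω hinv] with c hc
    have h2 : f (c0, z0) = 0 := h0
    rw [h2] at hc
    exact hc
  · filter_upwards [hcd.eventually_apply_eq_iff_implicitFunction hω hinv] with v hv hv0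
    have h2 : f (c0, z0) = 0 := h0
    rw [h2] at hv
    exact (hv.1 hv0).symm

/-- the coefficients of a polynomial of degree at most `d` -/
noncomputable def vec (Q : ℝ[X]) : Fin (d + 1) → ℝ := fun i => Q.coeff i

lemma cv_vec (Q : ℝ[X]) (hQ : Q.natDegree ≤ d) (z : ℂ) :
    cv (vec Q : Fin (d + 1) → ℝ) z = aeval z Q := by
  rw [Polynomial.aeval_eq_sum_range' (show Q.natDegree < d + 1 by omega)]
  unfold cv vec
  rw [← Fin.sum_univ_eq_sum_range (fun i => Q.coeff i • z ^ i)]
  refine sum_congr rfl fun i _ => ?_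
  rw [Complex.real_smul]

/-- the polynomial with given coefficients -/
noncomputable def pol (c : Fin (d + 1) → ℝ) : ℝ[X] := ∑ i, C (c i) * X ^ (i : ℕ)

lemma pol_coeff (c : Fin (d + 1) → ℝ) (i : Fin (d + 1)) : (pol c).coeff i = c i := by
  unfold pol
  rw [Polynomial.finsetSum_coeff, Finset.sum_eq_single i]
  · simp
  · intro j _ hj
    rw [Polynomial.coeff_C_mul_X_pow, if_neg]
    intro h
    exact hj (Fin.ext h.symm)
  · simp

lemma vec_pol (c : Fin (d + 1) → ℝ) : (vec (pol c) : Fin (d + 1) → ℝ) = c := by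
  funext i
  exact pol_coeff c i

lemma pol_deg (c : Fin (d + 1) → ℝ) : (pol c).natDegree ≤ d := by
  unfold pol
  apply Polynomial.natDegree_sum_le_of_forall_le
  intro i _
  exact (Polynomial.natDegree_C_mul_X_pow_le _ _).trans (by have := i.2; omega)

lemma pol_natDegree {c : Fin (d + 1) → ℝ} (hc : c (Fin.last d) ≠ 0) : (pol c).natDegree = d := by
  apply le_antisymm (pol_deg c)
  apply Polynomial.le_natDegree_of_ne_zero
  have := pol_coeff c (Fin.last d)
  rw [Fin.val_last] at this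
  rw [this]
  exact hc

lemma aeval_pol (c : Fin (d + 1) → ℝ) (z : ℂ) : aeval z (pol c) = cv c z := by
  rw [← cv_vec _ (pol_deg c), vec_pol]

/-- moving one root -/
theorem exists_path {c0 : Fin (d + 1) → ℝ} (hc0 : c0 (Fin.last d) ≠ 0) {z0 : ℂ}
    (h0 : cv c0 z0 = 0) :
    ∃ (D : Set ℂ) (γ : ℂ → Fin (d + 1) → ℝ), ContinuousAt γ z0 ∧ γ z0 = c0 ∧
      (∀ w ∈ D, cv (γ w) w = 0) ∧
      (∀ w ∈ D, ∀ z, cv c0 z = 0 → z ≠ z0 → z ≠ conj z0 → cv (γ w) z = 0) ∧
      (D = Set.univ ∨ z0.im = 0 ∧ D = {w | w.im = 0}) := by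
  have hP0 : pol c0 ≠ 0 := by
    intro h
    have := pol_coeff c0 (Fin.last d)
    rw [h, Polynomial.coeff_zero] at this
    exact hc0 this.symm
  have hdeg := pol_natDegree hc0
  by_cases him : z0.im = 0
  · -- a real root
    have hz0 : z0 = ((z0.re : ℝ) : ℂ) := by
      apply Complex.ext
      · simp
      · simp [him]
    have hroot : (pol c0).IsRoot z0.re := by
      have h1 := aeval_pol c0 z0
      rw [h0, hz0, ← Complex.coe_algebraMap, Polynomial.aeval_algebraMap_apply,
        Polynomial.aeval_def] at h1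
      have h2 : (Polynomial.eval₂ (algebraMap ℝ ℝ) z0.re (pol c0)) = 0 := by
        apply (algebraMap ℝ ℂ).injective
        rw [map_zero]
        exact h1
      exact h2
    obtain ⟨R, hR⟩ := Polynomial.dvd_iff_isRoot.2 hroot
    have hR0 : R ≠ 0 := by
      rintro rfl
      rw [mul_zero] at hR
      exact hP0 hR
    have hRd : R.natDegree + 1 = d := by
      have h1 := congrArg Polynomial.natDegree hR
      rw [hdeg, Polynomial.natDegree_mul (Polynomial.X_sub_C_ne_zero _) hR0,
        Polynomial.natDegree_X_sub_C] at h1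
      omega
    have hdegw : ∀ w : ℂ, ((X - C w.re) * R).natDegree ≤ d := by
      intro w
      rw [Polynomial.natDegree_mul (Polynomial.X_sub_C_ne_zero _) hR0,
        Polynomial.natDegree_X_sub_C]
      omega
    refine ⟨{w | w.im = 0}, fun w => vec ((X - C w.re) * R), ?_, ?_, ?_, ?_, Or.inr ⟨him, rfl⟩⟩
    · apply Continuous.continuousAt
      refine continuous_pi fun i => ?_
      unfold vec
      have h1 : ∀ w : ℂ, ((X - C w.re) * R).coeff i = (X * R).coeff i - w.re * R.coeff i := by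
        intro w
        rw [sub_mul, Polynomial.coeff_sub, Polynomial.coeff_C_mul]
      simp only [h1]
      fun_prop
    · show vec ((X - C z0.re) * R) = c0
      rw [← hR, vec_pol]
    · intro w hw
      rw [cv_vec _ (hdegw w), map_mul]
      have h1 : aeval w (X - C w.re : ℝ[X]) = 0 := by
        rw [map_sub, Polynomial.aeval_X, Polynomial.aeval_C]
        apply Complex.ext
        · simp
        · simpa using hw
      rw [h1, zero_mul]
    · intro w _ z hz hz0' _
      rw [cv_vec _ (hdegw w), map_mul]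
      have h1 := aeval_pol c0 z
      rw [hR, hz, map_mul] at h1
      rcases mul_eq_zero.1 h1 with h2 | h2
      · exfalso
        apply hz0'
        rw [map_sub, Polynomial.aeval_X, Polynomial.aeval_C, sub_eq_zero] at h2
        rw [h2, hz0]
        simp
      · rw [h2, mul_zero]
  · -- a pair of complex roots
    have haev : aeval z0 (pol c0) = 0 := by rw [aeval_pol, h0]
    obtain ⟨R, hR⟩ := Polynomial.quadratic_dvd_of_aeval_eq_zero_im_ne_zero _ haev him
    have hQ : ∀ w : ℂ, (X ^ 2 - C (2 * w.re) * X + C (‖w‖ ^ 2) : ℝ[X]).natDegree = 2 := by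
      intro w
      have h1 : (X ^ 2 - C (2 * w.re) * X + C (‖w‖ ^ 2) : ℝ[X]) =
          C 1 * X ^ 2 + C (-(2 * w.re)) * X + C (‖w‖ ^ 2) := by
        simp only [map_one, one_mul, map_neg, neg_mul]
        ring
      rw [h1]
      exact Polynomial.natDegree_quadratic one_ne_zero
    have hQ0 : ∀ w : ℂ, (X ^ 2 - C (2 * w.re) * X + C (‖w‖ ^ 2) : ℝ[X]) ≠ 0 := by
      intro w h
      have := hQ w
      rw [h, Polynomial.natDegree_zero] at this
      omega
    have hR0 : R ≠ 0 := by
      rintro rfl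
      rw [mul_zero] at hR
      exact hP0 hR
    have hRd : R.natDegree + 2 = d := by
      have h1 := congrArg Polynomial.natDegree hR
      rw [hdeg, Polynomial.natDegree_mul (hQ0 z0) hR0, hQ] at h1
      omega
    have hdegw : ∀ w : ℂ, ((X ^ 2 - C (2 * w.re) * X + C (‖w‖ ^ 2)) * R).natDegree ≤ d := by
      intro w
      rw [Polynomial.natDegree_mul (hQ0 w) hR0, hQ]
      omega
    have hval : ∀ w z : ℂ, aeval z (X ^ 2 - C (2 * w.re) * X + C (‖w‖ ^ 2) : ℝ[X]) =
        (z - w) * (z - conj w) := by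
      intro w z
      rw [map_add, map_sub, map_mul, map_pow, Polynomial.aeval_X, Polynomial.aeval_C,
        Polynomial.aeval_C]
      have h1 : algebraMap ℝ ℂ (2 * w.re) = w + conj w := by
        rw [Complex.add_conj]
        simp
      have h2 : algebraMap ℝ ℂ (‖w‖ ^ 2) = w * conj w := by
        rw [Complex.mul_conj, Complex.normSq_eq_norm_sq]
        simp
      rw [h1, h2]
      ring
    refine ⟨Set.univ, fun w => vec ((X ^ 2 - C (2 * w.re) * X + C (‖w‖ ^ 2)) * R), ?_, ?_, ?_, ?_,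
      Or.inl rfl⟩
    · apply Continuous.continuousAt
      refine continuous_pi fun i => ?_
      unfold vec
      have h1 : ∀ w : ℂ, ((X ^ 2 - C (2 * w.re) * X + C (‖w‖ ^ 2)) * R).coeff i =
          (X ^ 2 * R).coeff i - (2 * w.re) * (X * R).coeff i + ‖w‖ ^ 2 * R.coeff i := by
        intro w
        rw [add_mul, sub_mul, Polynomial.coeff_add, Polynomial.coeff_sub, mul_assoc,
          Polynomial.coeff_C_mul, Polynomial.coeff_C_mul]
      simp only [h1]
      fun_prop
    · show vec ((X ^ 2 - C (2 * z0.re) * X + C (‖z0‖ ^ 2)) * R) = c0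
      rw [← hR, vec_pol]
    · intro w _
      rw [cv_vec _ (hdegw w), map_mul, hval, sub_self, zero_mul, zero_mul]
    · intro w _ z hz hz0' hz0''
      rw [cv_vec _ (hdegw w), map_mul]
      have h1 := aeval_pol c0 z
      rw [hR, hz, map_mul, hval] at h1
      rcases mul_eq_zero.1 h1 with h2 | h2
      · exfalso
        rcases mul_eq_zero.1 h2 with h3 | h3
        · exact hz0' (sub_eq_zero.1 h3)
        · exact hz0'' (sub_eq_zero.1 h3)
      · rw [h2, mul_zero]

end Pool.Agent.Q270.RT
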