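import Pool.Agent.Q270.RT.Glob

/-!
# All systems of coordinates at once
-/

set_option autoImplicit false

namespace Pool.Agent.Q270.RT

open Finset Real Filter Topology MeasureTheory
open scoped ComplexConjugate
open Pool.Agent.Q270.MB (Adm MultIndep)
open Pool.Agent.Q270.SR (Disc)
open Pool.Agent.Q270.AA (Cu Cu_closed Cu_bounded lattice_count cube_finite)

variable {d r n : ℕ}

/-- a system of coordinates with a large discrepancy in a window -/
def Bad (d m B : ℕ) (A κ ε : ℝ) (M : ℕ) (a : Fin (d + 1) → ℤ) : Prop :=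
  ∃ (n : ℕ) (z : Fin n → ℂ) (k : Fin n → ℕ) (τ : Fin n → Bool) (b s : Fin n → ℕ) (N : ℕ),
    (∀ j, ∑ i, (a i : ℂ) * z j ^ (i : ℕ) = 0) ∧ (∀ j, 0 ≤ (z j).im) ∧
    (∀ j, τ j = true → 0 < (z j).im) ∧ (∀ j, 1 ≤ k j ∧ k j ≤ m) ∧ (∀ j, 2 ≤ b j ∧ b j ≤ B) ∧
    (∀ j j', j ≠ j' → z j = z j' → k j = k j' → τ j = τ j' → MultIndep (b j) (b j')) ∧
    (∀ j, (M : ℝ) ^ κ ≤ (b j : ℝ) ^ s j) ∧ (∀ j, (s j : ℝ) + N ≤ A * log M) ∧
    ¬ Disc b s N (fun j => part (τ j) (z j ^ k j)) ((log M) ^ (1 / 2 + ε))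

/-- the patterns -/
abbrev Pat (n0 m : ℕ) : Type :=
  Σ (n : Fin n0) (r : Fin (n0 + 1)), (Fin ((n : ℕ) + 1) → Fin (r : ℕ)) ×
    (Fin (r : ℕ) → Fin m) × (Fin (r : ℕ) → Bool)

/-- removing the repetitions -/
lemma factor {α : Type*} {n : ℕ} (q : Fin n → α) : ∃ (r : ℕ) (σ : Fin n → Fin r)
    (q' : Fin r → α), r ≤ n ∧ Function.Injective q' ∧ Function.Surjective σ ∧
      ∀ j, q' (σ j) = q j := by
  classical
  set I : Finset α := univ.image q with hI
  have hcard : I.card ≤ n := by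
    have := Finset.card_image_le (s := (univ : Finset (Fin n))) (f := q)
    rwa [card_univ, Fintype.card_fin] at this
  refine ⟨I.card, fun j => I.equivFin ⟨q j, mem_image_of_mem _ (mem_univ j)⟩,
    fun i => (I.equivFin.symm i).1, hcard, ?_, ?_, ?_⟩
  · intro i i' h
    exact I.equivFin.symm.injective (Subtype.ext h)
  · intro i
    obtain ⟨j, -, hj⟩ := mem_image.1 (I.equivFin.symm i).2
    exact ⟨j, (Equiv.eq_symm_apply _).1 (Subtype.ext hj)⟩
  · intro j
    simp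

lemma cv_int {M : ℕ} (a : Fin (d + 1) → ℤ) (z : ℂ) :
    cv (fun i => (a i : ℝ) / M) z = (∑ i, (a i : ℂ) * z ^ (i : ℕ)) / M := by
  unfold cv
  rw [Finset.sum_div]
  refine sum_congr rfl fun i _ => ?_
  push_cast
  ring

/-- the number of the coordinates is bounded -/
lemma card_le {m B n : ℕ} {c : Fin (d + 1) → ℝ} (hc : c (Fin.last d) ≠ 0) {z : Fin n → ℂ}
    {k : Fin n → ℕ} {τ : Fin n → Bool} {b : Fin n → ℕ} (hz : ∀ j, cv c (z j) = 0)
    (hk : ∀ j, k j ≤ m) (hb : ∀ j, b j ≤ B)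
    (hind : ∀ j j', j ≠ j' → z j = z j' → k j = k j' → τ j = τ j' → MultIndep (b j) (b j')) :
    n ≤ d * ((m + 1) * (2 * (B + 1))) := by
  classical
  set Rt : Finset ℂ := ((pol c).aroots ℂ).toFinset with hRt
  have hpol0 : pol c ≠ 0 := by
    intro h
    have := pol_coeff c (Fin.last d)
    rw [h, Polynomial.coeff_zero] at this
    exact hc this.symm
  have hRtc : Rt.card ≤ d := by
    refine (Multiset.toFinset_card_le _).trans ?_
    refine (Polynomial.card_roots' _).trans ?_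
    refine (Polynomial.natDegree_map_le).trans (pol_deg c)
  set X : Finset (ℂ × ℕ × Bool × ℕ) := Rt ×ˢ range (m + 1) ×ˢ (univ : Finset Bool) ×ˢ
    range (B + 1) with hX
  have hXc : X.card ≤ d * ((m + 1) * (2 * (B + 1))) := by
    rw [hX, card_product, card_product, card_product, card_range, card_range, card_univ,
      Fintype.card_bool]
    exact Nat.mul_le_mul_right _ hRtc
  have h1 : (univ : Finset (Fin n)).card ≤ X.card := by
    refine Finset.card_le_card_of_injOn (fun j => (z j, k j, τ j, b j)) ?_ ?_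
    · intro j _
      rw [hX]
      simp only [Finset.coe_product, Set.mem_prod, Finset.mem_coe, mem_range, mem_univ, true_and]
      refine ⟨?_, by have := hk j; omega, by have := hb j; omega⟩
      rw [hRt, Multiset.mem_toFinset, Polynomial.mem_aroots]
      exact ⟨hpol0, by rw [aeval_pol]; exact hz j⟩
    · intro j _ j' _ h
      simp only [Prod.mk.injEq] at h
      by_contra hcon
      exact (hind j j' hcon h.1 h.2.1 h.2.2.1) 1 1 le_rfl le_rfl (by rw [h.2.2.2])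
  rw [card_univ, Fintype.card_fin] at h1
  exact h1.trans hXc

/-- the empty system -/
lemma Disc_zero (b s : Fin 0 → ℕ) (N : ℕ) (z : Fin 0 → ℝ) {E : ℝ} (hE : 0 ≤ E) :
    Disc b s N z E := by
  intro t _ _
  simp [hE]

/-- from the bad systems to the patterns -/
lemma bad_pattern {K : Set (Fin (d + 1) → ℝ)} (hKC : K ⊆ Cu d) (hKZ : ∀ c ∈ K, c ∉ Zc d)
    {m B : ℕ} {A κ ε : ℝ} {M : ℕ} (hM : 1 ≤ M) {a : Fin (d + 1) → ℤ}
    (haK : (fun i => (a i : ℝ) / M) ∈ K) (h : Bad d m B A κ ε M a) :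
    ∃ p : Pat (d * ((m + 1) * (2 * (B + 1)))) m,
      BadP K p.2.2.1 (fun j => (p.2.2.2.1 j : ℕ) + 1) p.2.2.2.2 B A κ ε M a := by
  obtain ⟨n, z, k, τ, b, s, N, h1, h2, h3, h4, h5, h6, h7, h8, h9⟩ := h
  set c : Fin (d + 1) → ℝ := fun i => (a i : ℝ) / M with hc
  have hlead : c (Fin.last d) ≠ 0 := fun h => hKZ c haK ⟨hKC haK, Or.inl h⟩
  have hroot : ∀ j, cv c (z j) = 0 := fun j => by
    rw [hc, cv_int, h1 j, zero_div]
  have hn := card_le hlead hroot (fun j => (h4 j).2) (fun j => (h5 j).2) h6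
  have hMR : (1 : ℝ) ≤ M := by exact_mod_cast hM
  have hn0 : n ≠ 0 := by
    rintro rfl
    exact h9 (Disc_zero _ _ _ _ (Real.rpow_nonneg (Real.log_nonneg hMR) _))
  obtain ⟨n', rfl⟩ := Nat.exists_eq_succ_of_ne_zero hn0
  obtain ⟨r, σ, q', hr, hinj, hsurj, hq⟩ := factor (fun j => (z j, k j, τ j))
  have hkpos : ∀ i, 1 ≤ (q' i).2.1 ∧ (q' i).2.1 ≤ m := by
    intro i
    obtain ⟨j, rfl⟩ := hsurj i
    rw [hq]
    exact h4 j
  refine ⟨⟨⟨n', by omega⟩, ⟨r, by omega⟩, σ, fun i => ⟨(q' i).2.1 - 1, ?_⟩,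
    fun i => (q' i).2.2⟩, ?_⟩
  · have := hkpos i
    omega
  have hkk : ∀ i, (q' i).2.1 - 1 + 1 = (q' i).2.1 := fun i => by have := hkpos i; omega
  refine ⟨haK, fun i => (q' i).1, ?_, ?_, ?_, ?_, ?_⟩
  · intro i
    obtain ⟨j, rfl⟩ := hsurj i
    simp only [hq]
    exact hroot j
  · intro i
    obtain ⟨j, rfl⟩ := hsurj i
    simp only [hq]
    exact h2 j
  · intro i
    obtain ⟨j, rfl⟩ := hsurj i
    simp only [hq]
    exact h3 j
  · intro i i' g1 g2 g3
    simp only at g1 g2 g3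
    apply hinj
    refine Prod.ext g1 (Prod.ext ?_ g3)
    have := hkpos i
    have := hkpos i'
    omega
  · intro hG
    simp only [hkk] at hG
    apply h9
    have h10 := hG b h5 (fun j j' hjj hσ => ?_) s N h7 h8
    · have h11 : (fun j => part (q' (σ j)).2.2 ((q' (σ j)).1 ^ (q' (σ j)).2.1)) =
          fun j => part (τ j) (z j ^ k j) := by
        funext j
        rw [hq]
      rw [h11] at h10
      exact h10
    · have h11 : (z j, k j, τ j) = (z j', k j', τ j') := by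
        rw [← hq j, ← hq j', hσ]
      simp only [Prod.mk.injEq] at h11
      exact h6 j j' hjj h11.1 h11.2.1 h11.2.2

/-- compact sets of polynomials without multiple roots -/
theorem compact_total (hd : 1 ≤ d) {K : Set (Fin (d + 1) → ℝ)} (hK : IsCompact K)
    (hKC : K ⊆ Cu d) (hKZ : ∀ c ∈ K, c ∉ Zc d) (m B : ℕ) (A κ ε T : ℝ) (hκ : 0 < κ)
    (hε : 0 < ε) :
    ∃ C : ℝ, 0 ≤ C ∧ ∃ M₀ : ℕ, ∀ M : ℕ, M₀ ≤ M → ∀ Ts : Finset (Fin (d + 1) → ℤ),
      (∀ a ∈ Ts, (fun i => (a i : ℝ) / M) ∈ K ∧ Bad d m B A κ ε M a) →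
      (Ts.card : ℝ) ≤ C * ((M : ℝ) ^ (d + 1) * (log M) ^ (-T)) := by
  obtain ⟨C, hC, M0, h⟩ := union_bound (P := Pat (d * ((m + 1) * (2 * (B + 1)))) m)
    (X := fun p M a => BadP K p.2.2.1 (fun j => (p.2.2.2.1 j : ℕ) + 1) p.2.2.2.2 B A κ ε M a)
    (F := fun M => (M : ℝ) ^ (d + 1) * (log M) ^ (-T))
    (fun p => pattern hd hK hKC hKZ p.2.2.1 (by omega) B A κ ε T hκ hε
      (fun j => (p.2.2.2.1 j : ℕ) + 1) (fun j => by omega) p.2.2.2.2)
  refine ⟨C, hC, max M0 1, fun M hM Ts hTs => h M (le_of_max_le_left hM) Ts fun a ha => ?_⟩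
  exact bad_pattern hKC hKZ (le_of_max_le_right hM) (hTs a ha).1 (hTs a ha).2

lemma scaled_finite (M : ℕ) (hM : 0 < (M : ℝ)) {K : Set (Fin (d + 1) → ℝ)}
    (hK : Bornology.IsBounded K) :
    {a : Fin (d + 1) → ℤ | (fun i => (a i : ℝ) / M) ∈ K}.Finite := by
  obtain ⟨R, hR⟩ := hK.subset_closedBall 0
  have h1 : {a : Fin (d + 1) → ℤ | (fun i => (a i : ℝ) / M) ∈ K} ⊆
      {a : Fin (d + 1) → ℤ | ∀ i, |a i| ≤ (⌈|R| * M⌉₊ : ℕ)} := by
    intro a ha i
    have h2 := hR ha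
    rw [Metric.mem_closedBall, dist_zero_right] at h2
    have h3 := (norm_le_pi_norm _ i).trans h2
    rw [Real.norm_eq_abs, abs_div, abs_of_pos hM, div_le_iff₀ hM] at h3
    have h4 : |(a i : ℝ)| ≤ (⌈|R| * M⌉₊ : ℝ) := by
      refine h3.trans (le_trans ?_ (Nat.le_ceil _))
      gcongr
      exact le_abs_self R
    have h5 : ((|a i| : ℤ) : ℝ) ≤ (((⌈|R| * M⌉₊ : ℕ) : ℤ) : ℝ) := by
      push_cast
      exact h4
    exact_mod_cast h5
  exact (cube_finite d _).subset h1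

/-- the compact sets, without the constant -/
theorem compact_rate (hd : 1 ≤ d) {K : Set (Fin (d + 1) → ℝ)} (hK : IsCompact K)
    (hKC : K ⊆ Cu d) (hKZ : ∀ c ∈ K, c ∉ Zc d) (m B : ℕ) (A κ ε T : ℝ) (hκ : 0 < κ)
    (hε : 0 < ε) :
    ∀ᶠ M : ℕ in atTop, (({a : Fin (d + 1) → ℤ | (fun i => (a i : ℝ) / M) ∈ K ∧
      Bad d m B A κ ε M a}.ncard : ℕ) : ℝ) ≤ (M : ℝ) ^ (d + 1) * (log M) ^ (-T) := by
  obtain ⟨C, hC, M0, h⟩ := compact_total hd hK hKC hKZ m B A κ ε (T + 1) hκ hε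
  have hlog : Tendsto (fun M : ℕ => log (M : ℝ)) atTop atTop :=
    Real.tendsto_log_atTop.comp tendsto_natCast_atTop_atTop
  filter_upwards [eventually_ge_atTop M0, eventually_ge_atTop 1, hlog.eventually_ge_atTop C,
    hlog.eventually_gt_atTop 0] with M b1 b2 b3 b4
  have hMp : (0 : ℝ) < M := by exact_mod_cast b2
  have hfin : {a : Fin (d + 1) → ℤ | (fun i => (a i : ℝ) / M) ∈ K ∧
      Bad d m B A κ ε M a}.Finite := (scaled_finite M hMp hK.isBounded).subset fun a ha => ha.1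
  rw [Set.ncard_eq_toFinset_card _ hfin]
  refine (h M b1 hfin.toFinset fun a ha => ?_).trans ?_
  · rw [Set.Finite.mem_toFinset] at ha
    exact ha
  · have h1 : (log (M : ℝ)) ^ (-T) = log M * (log M) ^ (-(T + 1)) := by
      nth_rewrite 2 [← Real.rpow_one (log (M : ℝ))]
      rw [← Real.rpow_add b4]
      congr 1
      ring
    rw [h1]
    calc C * ((M : ℝ) ^ (d + 1) * (log M) ^ (-(T + 1))) ≤
          log M * ((M : ℝ) ^ (d + 1) * (log M) ^ (-(T + 1))) := by gcongr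
      _ = _ := by ring

/-- the digits of the roots of almost all polynomials -/
theorem global (hd : 1 ≤ d) (m B : ℕ) (A κ ε : ℝ) (hκ : 0 < κ) (hε : 0 < ε) (ζ : ℝ)
    (hζ : 0 < ζ) :
    ∀ᶠ M : ℕ in atTop, (({a : Fin (d + 1) → ℤ | (∀ i, |a i| ≤ M) ∧
      Bad d m B A κ ε M a}.ncard : ℕ) : ℝ) ≤ ζ * (M : ℝ) ^ (d + 1) := by
  classical
  -- the thickening
  have hZb : Bornology.IsBounded (Zc d) := (Cu_bounded d).subset fun c hc => hc.1
  have hZc := Zc_closed hd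
  have hvol : Tendsto (fun r => volume (Metric.thickening r (Zc d))) (𝓝[>] 0) (𝓝 0) := by
    have h1 := tendsto_measure_thickening_of_isClosed (μ := (volume : Measure (Fin (d + 1) → ℝ)))
      ⟨1, one_pos, (hZb.thickening.measure_lt_top).ne⟩ hZc
    rwa [Zc_null hd] at h1
  obtain ⟨t1, ht1, ht1b⟩ : ∃ t1 : ℝ, 0 < t1 ∧ ∀ r : ℝ, 0 < r → r < t1 →
      volume (Metric.thickening r (Zc d)) < ENNReal.ofReal (ζ / 2) := by
    have h1 := hvol.eventually (gt_mem_nhds (show (0 : ENNReal) < ENNReal.ofReal (ζ / 2) by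
      rw [ENNReal.ofReal_pos]; positivity))
    rw [eventually_nhdsWithin_iff, Metric.eventually_nhds_iff] at h1
    obtain ⟨t1, ht1, h2⟩ := h1
    refine ⟨t1, ht1, fun r hr hrt => h2 ?_ hr⟩
    rw [dist_zero_right, Real.norm_eq_abs, abs_of_pos hr]
    exact hrt
  obtain ⟨t, ⟨ht0, htt1⟩, htf⟩ := exists_null_frontier_thickening
    (volume : Measure (Fin (d + 1) → ℝ)) (Zc d) (show (0 : ℝ) < t1 from ht1)
  set Th := Metric.thickening t (Zc d) with hTh
  have hThv : volume.real Th < ζ / 2 := by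
    have h1 := ht1b t ht0 htt1
    unfold Measure.real
    rw [← ENNReal.toReal_ofReal (show 0 ≤ ζ / 2 by positivity)]
    exact (ENNReal.toReal_lt_toReal (ne_top_of_lt h1) ENNReal.ofReal_ne_top).2 h1
  have hcount := lattice_count Th hZb.thickening Metric.isOpen_thickening.measurableSet htf
  -- the compact set
  have hCucpt : IsCompact (Cu d) :=
    Metric.isCompact_of_isClosed_isBounded (Cu_closed d) (Cu_bounded d)
  have hKcpt : IsCompact (Cu d \ Th) := hCucpt.diff Metric.isOpen_thickening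
  have h1 := compact_rate hd hKcpt Set.sdiff_subset (fun c hc hcZ =>
    hc.2 (Metric.self_subset_thickening ht0 _ hcZ)) m B A κ ε 1 hκ hε
  have hlog : Tendsto (fun M : ℕ => log (M : ℝ)) atTop atTop :=
    Real.tendsto_log_atTop.comp tendsto_natCast_atTop_atTop
  filter_upwards [h1, hcount.eventually (gt_mem_nhds hThv), eventually_ge_atTop 1,
    hlog.eventually_ge_atTop (2 / ζ), hlog.eventually_gt_atTop 0] with M b1 b2 b3 b4 b5
  have hMp : (0 : ℝ) < M := by exact_mod_cast b3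
  set T1 : Set (Fin (d + 1) → ℤ) := {a | (fun i => (a i : ℝ) / M) ∈ Th} with hT1
  have hT1fin : T1.Finite := scaled_finite M hMp hZb.thickening
  set T2 : Set (Fin (d + 1) → ℤ) := {a | (fun i => (a i : ℝ) / M) ∈ Cu d \ Th ∧
    Bad d m B A κ ε M a} with hT2
  have hT2fin : T2.Finite :=
    (scaled_finite M hMp hKcpt.isBounded).subset fun a ha => ha.1
  have hsub : {a : Fin (d + 1) → ℤ | (∀ i, |a i| ≤ M) ∧ Bad d m B A κ ε M a} ⊆ T1 ∪ T2 := by
    intro a ha
    by_cases h : a ∈ T1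
    · exact Or.inl h
    · right
      refine ⟨⟨fun i => ?_, h⟩, ha.2⟩
      simp only
      rw [abs_div, abs_of_pos hMp, div_le_one hMp]
      have := ha.1 i
      have h2 : ((|a i| : ℤ) : ℝ) ≤ ((M : ℤ) : ℝ) := by exact_mod_cast this
      push_cast at h2
      exact h2
  have h2 : (({a : Fin (d + 1) → ℤ | (∀ i, |a i| ≤ M) ∧ Bad d m B A κ ε M a}.ncard : ℕ) : ℝ) ≤
      (T1.ncard : ℝ) + T2.ncard := by
    have h3 := (Set.ncard_le_ncard hsub (hT1fin.union hT2fin)).trans (Set.ncard_union_le _ _)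
    exact_mod_cast h3
  have h3 : (T1.ncard : ℝ) ≤ ζ / 2 * (M : ℝ) ^ (d + 1) := by
    rw [div_lt_iff₀ (by positivity)] at b2
    exact b2.le
  have h4 : (T2.ncard : ℝ) ≤ ζ / 2 * (M : ℝ) ^ (d + 1) := by
    refine b1.trans ?_
    rw [mul_comm]
    gcongr
    rw [Real.rpow_neg_one, inv_le_comm₀ b5 (by positivity)]
    refine le_trans (le_of_eq ?_) b4
    rw [inv_div]
  linarith

end Pool.Agent.Q270.RT
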